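import Pool.Agent.K7.H53.LT.Twist
import Pool.Agent.Y60.DC.Frame
import Pool.Agent.Y60.DC.AddPoly

/-!
# Split embedding problems whose kernel is a group of fixed points of a Steinberg endomorphism
-/

set_option autoImplicit false
set_option maxHeartbeats 800000

open IntermediateField

namespace Pool.Agent.K7.H53.LT

open Pool.Agent.Y60.DC (tb_up exists_iso frame exists_univ)
open Pool.Agent.H391R2.T4 (RegSol)

section aut

variable {p : ℕ} [Fact p.Prime] {A F K U κ ι : Type} [CommRing A] [IsDomain A]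
  [HopfAlgebra (ZMod p) A] [CommRing F] [Finite F]
  [Algebra (ZMod p) F] [Field K] [Algebra (ZMod p) K] [Field U] [IsAlgClosed U]
  [Algebra (ZMod p) U] [Algebra K U] [IsScalarTower (ZMod p) K U]
  [Fintype κ] [Fintype ι] [Algebra.FiniteType (ZMod p) A]

omit [Algebra.FiniteType (ZMod p) A] [Fintype ι] in
/-- Coordinates of the images under automorphisms of `U`. -/
theorem IsCoord.act_refl {E : Type} [Field E] [Algebra E U] {x : ι → FractionRing A} {e : κ → F}
    {g : Fam p A F U} {z : κ × ι → U} (h : IsCoord x e g z) (σ : U ≃ₐ[E] U)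
    (h1 : ∀ (c : F →ₐ[ZMod p] U) (r : F), σ (c r) = c r) :
    IsCoord x e (LT.act (toZ σ) AlgEquiv.refl AlgEquiv.refl isHopf_refl g) fun q => σ (z q) := by
  obtain ⟨hg, h⟩ := h
  have h2 : ∀ c a, hom (LT.act (toZ σ) AlgEquiv.refl AlgEquiv.refl isHopf_refl g c) a =
      σ (hom (g c) a) := act_refl_apply σ h1
  have hinj : ∀ c, Function.Injective
      (hom (LT.act (toZ σ) AlgEquiv.refl AlgEquiv.refl isHopf_refl g c)) := by
    intro c a b hab
    rw [h2, h2] at hab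
    exact hg c (σ.injective hab)
  refine ⟨hinj, fun c j => ?_⟩
  have h3 : ∀ q, ex _ (hinj c) q = σ (ex (hom (g c)) (hg c) q) := by
    intro q
    let G : FractionRing A →+* U :=
      (σ : U →+* U).comp (ex (hom (g c)) (hg c) : FractionRing A →+* U)
    refine (ex_unique _ (hinj c) G (fun a => ?_) q).symm
    change σ (ex (hom (g c)) (hg c) (algebraMap A (FractionRing A) a)) = _
    rw [ex_alg, h2]
  rw [h3, h, map_sum]
  refine Finset.sum_congr rfl fun i _ => ?_
  rw [map_mul, h1]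

/-- Automorphisms over the algebraic elements. -/
theorem exists_aut [IsReduced F] {x : ι → FractionRing A} (hx : IsRat (ZMod p) x)
    (e : Module.Basis κ (ZMod p) F) {u : κ × ι → U} (hu : IsTranscendenceBasis K u)
    {g : Fam p A F U} (hg : IsCoord x e g u) (t : Pts (ZMod p) A F) :
    ∃ σ : U ≃ₐ[K] U, (∀ z, IsAlgebraic K z → σ z = z) ∧
      act (toZ σ) AlgEquiv.refl AlgEquiv.refl isHopf_refl g = g * emb t := by
  obtain ⟨g', hg'⟩ : ∃ g' : Fam p A F U, g' = g * emb t := ⟨_, rfl⟩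
  have h1 : g = g' * emb t⁻¹ := by rw [hg', map_inv, mul_inv_cancel_right]
  obtain ⟨z, hz1, hz2⟩ := coord_mul_emb hx e hu hg t⁻¹ g' h1
  let C := algebraicClosure K U
  have hCu : IsTranscendenceBasis C u := tb_up hu
  have hCz : IsTranscendenceBasis C z := tb_up hz2
  obtain ⟨σ0, hσ0⟩ := exists_iso C U U _ hCu hCz
  obtain ⟨σ, hσσ⟩ : ∃ σ : U ≃ₐ[K] U, σ = σ0.restrictScalars K := ⟨_, rfl⟩
  have hfix : ∀ z, IsAlgebraic K z → σ z = z := fun z hz => by
    rw [hσσ]
    exact σ0.commutes ⟨z, mem_algebraicClosure_iff.2 hz⟩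
  have hσu : ∀ j, σ (u j) = z j := fun j => by
    rw [hσσ]
    exact hσ0 j
  refine ⟨σ, hfix, ?_⟩
  have h2 := hg.act_refl σ fun c r => hfix _ (alg_emb K c r)
  have h3 : (fun q => σ (u q)) = z := funext hσu
  rw [h3] at h2
  rw [← hg']
  exact h2.unique_g hx hz1

end aut

section main

variable {p : ℕ} [Fact p.Prime] {A F ι : Type} [CommRing A] [IsDomain A]
  [HopfAlgebra (ZMod p) A] [Algebra.FiniteType (ZMod p) A] [CommRing F] [Finite F]
  [Algebra (ZMod p) F] [Fintype ι]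

/-- **Groups of fixed points.** -/
theorem lie_reg [IsReduced F] {x : ι → FractionRing A} (hx : IsRat (ZMod p) x)
    (φ : A →ₐ[ZMod p] A) (hφ : IsHopf φ) (θ : F ≃ₐ[ZMod p] F) (m : ℕ)
    (hm1 : ∀ a, φ^[m] a = a ^ p) (hm2 : ∀ r, θ^[m] r = r ^ p)
    (N : Type) [Group N] [Finite N] (T : N →* Pts (ZMod p) A F) (hTi : Function.Injective T)
    (hT : ∀ t : Pts (ZMod p) A F, (∃ n, T n = t) ↔ ∀ a, hom t (φ a) = θ (hom t a))
    (K L : Type) [Field K] [Infinite K] [CharP K p] [Field L] [Algebra K L]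
    [FiniteDimensional K L] [IsGalois K L]
    (χ : (L ≃ₐ[K] L) →* MulAut N) (ω : (L ≃ₐ[K] L) →* (A ≃ₐ[ZMod p] A))
    (hω : ∀ γ, IsHopf (ω γ : A →ₐ[ZMod p] A)) (hωφ : ∀ γ a, ω γ (φ a) = φ (ω γ a))
    (hst : ∀ γ, Stable x (ω γ)) (ψ : (L ≃ₐ[K] L) →* (F ≃ₐ[ZMod p] F))
    (hψθ : ∀ γ, ψ γ * θ = θ * ψ γ)
    (hχ : ∀ γ n, T (χ γ n) = tact (ψ γ) (ω γ) (hω γ) (T n)) :
    RegSol K L (N ⋊[χ] (L ≃ₐ[K] L)) SemidirectProduct.rightHom := by
  classical
  let κ := Fin (Module.finrank (ZMod p) F)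
  let e : Module.Basis κ (ZMod p) F := Module.finBasis (ZMod p) F
  have cL : CharP L p := charP_of_injective_algebraMap (algebraMap K L).injective p
  let _ : Algebra (ZMod p) K := ZMod.algebra K p
  let _ : Algebra (ZMod p) L := ZMod.algebra L p
  have tL : IsScalarTower (ZMod p) K L := IsScalarTower.of_algebraMap_eq fun r =>
    RingHom.congr_fun (Subsingleton.elim (algebraMap (ZMod p) L)
      ((algebraMap K L).comp (algebraMap (ZMod p) K))) r
  obtain ⟨U, iU, icU, aKU, aLU, tU, u, hu⟩ := exists_univ K L (κ × ι)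
  have cU : CharP U p := charP_of_injective_algebraMap (algebraMap K U).injective p
  let _ : Algebra (ZMod p) U := ZMod.algebra U p
  have tKU : IsScalarTower (ZMod p) K U := IsScalarTower.of_algebraMap_eq fun r =>
    RingHom.congr_fun (Subsingleton.elim (algebraMap (ZMod p) U)
      ((algebraMap K U).comp (algebraMap (ZMod p) K))) r
  have tLU : IsScalarTower (ZMod p) L U := IsScalarTower.of_algebraMap_eq fun r =>
    RingHom.congr_fun (Subsingleton.elim (algebraMap (ZMod p) U)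
      ((algebraMap L U).comp (algebraMap (ZMod p) L))) r
  obtain ⟨g, hg⟩ := exists_gen_fam (A := A) hx e hu
  obtain ⟨h, hh⟩ : ∃ h : Fam p A F U, h = Phi φ hφ θ g * g⁻¹ := ⟨_, rfl⟩
  obtain ⟨z, hz1, hz2⟩ := lang_coord (K := K) hx e hu hg φ hφ θ m hm1 hm2 hh N T
    fun t ht => (hT t).2 ht
  obtain ⟨P, hP1, hP2, hP3⟩ := exists_P e ψ
  obtain ⟨E, M, hM0, hM1, hM2, hM3⟩ := exists_M hx ω hst
  obtain ⟨b, c, hbc, hb⟩ := twist_basis K L (fun γ => Matrix.kroneckerMap (· * ·) (P γ) (M γ))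
    (by rw [hP2, hM2]; exact Matrix.one_kronecker_one)
    (fun γ δ => by rw [hP3, hM3]; exact Matrix.mul_kronecker_mul _ _ _ _)
  obtain ⟨y, hy⟩ : ∃ y : κ × ι → U, y = fun l => ∑ j, algebraMap L U (c l j) * z j := ⟨_, rfl⟩
  have hyl : ∀ l, y l = ∑ j, algebraMap L U (c l j) * z j := fun l => by rw [hy]
  have halgL : ∀ l : L, IsAlgebraic K (algebraMap L U l) := fun l =>
    (Algebra.IsAlgebraic.isAlgebraic (R := K) l).algebraMap
  have hyb : IsTranscendenceBasis K y := by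
    refine tb_acl hz2 y fun q => ?_
    rw [← tw_sum hbc z q]
    refine sum_mem fun l _ => MulMemClass.mul_mem ?_ (alg_acl _ (halgL _))
    rw [← hyl]
    exact subset_acl _ ⟨l, rfl⟩
  -- the action in coordinates
  have hact : ∀ (σ : U ≃ₐ[K] U) (γ : L ≃ₐ[K] L), (∀ l, σ (algebraMap L U l) =
      algebraMap L U (γ l)) → (∀ l, σ (y l) = y l) →
      act (toZ σ) (ψ γ) (ω γ) (hω γ) h = h := by
    intro σ γ hσ hy'
    have h1 := hz1.act (toZ σ) (ψ γ) (ω γ) (hω γ) (P γ) (hP1 γ) (M γ) (E γ) (hM0 γ) (hM1 γ)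
    have h2 : (fun q : κ × ι => ∑ l, ∑ i, algebraMap (ZMod p) U (P γ q.1 l) *
        algebraMap (ZMod p) U (M γ q.2 i) * (toZ σ : U ≃ₐ[ZMod p] U) (z (l, i))) = z := by
      funext q
      have h3 := tw_fix (k := ZMod p) hbc (Matrix.kroneckerMap (· * ·) (P γ) (M γ)) γ (hb γ) σ hσ z
        (fun l => by rw [← hyl]; exact hy' l) q
      rw [Fintype.sum_prod_type] at h3
      conv_rhs => rw [← h3]
      refine Finset.sum_congr rfl fun l _ => Finset.sum_congr rfl fun i _ => ?_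
      rw [Matrix.kroneckerMap_apply, map_mul]
      rfl
    rw [h2] at h1
    exact h1.unique_g hx hz1
  let bL := Module.finBasis K L
  have hsurj : Function.Surjective (SemidirectProduct.rightHom :
      N ⋊[χ] (L ≃ₐ[K] L) →* (L ≃ₐ[K] L)) :=
    SemidirectProduct.rightHom_surjective
  have hfin : Finite (N ⋊[χ] (L ≃ₐ[K] L)) :=
    Finite.of_equiv _ SemidirectProduct.equivProd.symm
  have hembi : Function.Injective (emb : Pts (ZMod p) A F →* Fam p A F U) := emb_injective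
  refine frame K L _ SemidirectProduct.rightHom hsurj U _ y hyb
    (fun σ s => (∀ l, σ (algebraMap L U l) = algebraMap L U (s.right l)) ∧
      act (toZ σ) (ψ s.right) (ω s.right) (hω s.right) g = g * emb (T s.left))
    ?_ ?_ ?_ (fun σ g h => h.1)
    (Set.range u ∪ Set.range fun i => algebraMap L U (bL i))
    ((Set.finite_range _).union (Set.finite_range _)) ?_ ?_
  · -- existence
    intro σ hσ
    obtain ⟨γ, hγ⟩ : ∃ γ : L ≃ₐ[K] L, γ = σ.restrictNormal L := ⟨_, rfl⟩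
    have h1 : ∀ l, σ (algebraMap L U l) = algebraMap L U (γ l) := by
      intro l
      rw [hγ, AlgEquiv.restrictNormal_commutes]
    obtain ⟨t, ht1, ht2⟩ := act_lang φ hφ θ m hm1 hm2 hh (toZ σ) (ψ γ) (ω γ) (hω γ) (hωφ γ)
      (hψθ γ) (hact σ γ h1 hσ)
    obtain ⟨n, rfl⟩ := (hT t).2 ht1
    exact ⟨⟨n, γ⟩, h1, ht2⟩
  · -- uniqueness
    rintro σ s s' ⟨h1, h2⟩ ⟨h3, h4⟩
    have h5 : s.right = s'.right := by
      ext l
      apply (algebraMap L U).injective
      rw [← h1, ← h3]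
    apply SemidirectProduct.ext _ h5
    apply hTi
    apply hembi
    obtain ⟨n, γ⟩ := s
    obtain ⟨n', γ'⟩ := s'
    change γ = γ' at h5
    subst h5
    exact mul_left_cancel (h2.symm.trans h4)
  · -- products
    rintro σ σ' s s' ⟨h1, h2⟩ ⟨h3, h4⟩
    refine ⟨fun l => ?_, ?_⟩
    · rw [AlgEquiv.mul_apply, h3, h1]
      rfl
    · obtain ⟨n, γ⟩ := s
      obtain ⟨n', γ'⟩ := s'
      change act (toZ σ) (ψ γ) (ω γ) (hω γ) g = g * emb (T n) at h2
      change act (toZ σ') (ψ γ') (ω γ') (hω γ') g = g * emb (T n') at h4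
      have h5 : ∀ (ψ' : F ≃ₐ[ZMod p] F) (ω' : A ≃ₐ[ZMod p] A)
          (hω' : IsHopf (ω' : A →ₐ[ZMod p] A)), ψ' = ψ γ * ψ γ' → ω' = ω γ * ω γ' →
          act (toZ (σ * σ')) ψ' ω' hω' g =
          act (toZ σ) (ψ γ) (ω γ) (hω γ) (act (toZ σ') (ψ γ') (ω γ') (hω γ') g) := by
        intro ψ' ω' hω' e1 e2
        subst e1
        subst e2
        exact act_mul (toZ σ) (toZ σ') (ψ γ) (ψ γ') (ω γ) (ω γ') (hω γ) (hω γ') hω' g
      change act (toZ (σ * σ')) (ψ (γ * γ')) (ω (γ * γ')) (hω (γ * γ')) g = g * emb (T (n * χ γ n'))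
      rw [h5 _ _ _ (map_mul ψ γ γ') (map_mul ω γ γ'), h4, map_mul, h2, act_emb, map_mul, hχ,
        map_mul, mul_assoc]
  · -- finiteness
    intro σ hσ hS
    have hL : ∀ l, σ (algebraMap L U l) = algebraMap L U l := by
      intro l
      rw [← bL.sum_repr l, map_sum, map_sum]
      refine Finset.sum_congr rfl fun i _ => ?_
      rw [Algebra.smul_def, map_mul, map_mul, hS _ (Or.inr ⟨i, rfl⟩),
        ← IsScalarTower.algebraMap_apply K L U, AlgEquiv.commutes]
    have hF : act (toZ σ) (ψ 1) (ω 1) (hω 1) h = h := hact σ 1 hL hσ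
    obtain ⟨t, ht1, ht2⟩ := act_lang φ hφ θ m hm1 hm2 hh (toZ σ) (ψ 1) (ω 1) (hω 1) (hωφ 1)
      (hψθ 1) hF
    refine ⟨hL, ?_⟩
    change act (toZ σ) (ψ 1) (ω 1) (hω 1) g = g * emb (T 1)
    have h1 := hg.act (toZ σ) (ψ 1) (ω 1) (hω 1) (P 1) (hP1 1) (M 1) (E 1) (hM0 1) (hM1 1)
    have h2 : (fun q : κ × ι => ∑ l, ∑ i, algebraMap (ZMod p) U (P 1 q.1 l) *
        algebraMap (ZMod p) U (M 1 q.2 i) * (toZ σ : U ≃ₐ[ZMod p] U) (u (l, i))) = u := by
      funext q
      have h3 : ∀ l i, (toZ σ : U ≃ₐ[ZMod p] U) (u (l, i)) = u (l, i) := fun l i =>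
        hS _ (Or.inl ⟨(l, i), rfl⟩)
      simp only [h3, hP2, hM2]
      rw [Finset.sum_eq_single q.1]
      · rw [Finset.sum_eq_single q.2]
        · rw [Matrix.one_apply_eq, Matrix.one_apply_eq, map_one, one_mul, one_mul]
        · intro i _ hi
          rw [Matrix.one_apply_ne (Ne.symm hi), map_zero, mul_zero, zero_mul]
        · intro hq
          exact absurd (Finset.mem_univ _) hq
      · intro l _ hl
        refine Finset.sum_eq_zero fun i _ => ?_
        rw [Matrix.one_apply_ne (Ne.symm hl), map_zero, zero_mul, zero_mul]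
      · intro hq
        exact absurd (Finset.mem_univ _) hq
    rw [h2] at h1
    have h4 : (g * emb (T 1) : Fam p A F U) = g := by
      rw [T.map_one, (emb : Pts (ZMod p) A F →* Fam p A F U).map_one, mul_one]
    rw [h4]
    exact h1.unique_g hx hg
  · -- the kernel
    rintro ⟨n, γ⟩ hγ
    change γ = 1 at hγ
    subst hγ
    obtain ⟨σ, hσ1, hσ2⟩ := exists_aut (K := K) hx e hu hg (T n)
    have hF : act (toZ σ) AlgEquiv.refl AlgEquiv.refl isHopf_refl h = h :=
      lang_act φ hφ θ hh (toZ σ) AlgEquiv.refl AlgEquiv.refl isHopf_refl (fun _ => rfl) rfl (T n)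
        ((hT _).1 ⟨n, rfl⟩) hσ2
    have h1 := hz1.act_refl σ fun c r => hσ1 _ (alg_emb K c r)
    rw [hF] at h1
    have h2 : (fun q => σ (z q)) = z := h1.unique_z hz1
    refine ⟨σ, hσ1, fun l => ?_, fun l => hσ1 _ (halgL l), ?_⟩
    · rw [hyl, map_sum]
      refine Finset.sum_congr rfl fun j _ => ?_
      rw [map_mul, hσ1 _ (halgL _)]
      congr 1
      exact congrFun h2 j
    · change act (toZ σ) (ψ 1) (ω 1) (hω 1) g = g * emb (T n)
      rw [← hσ2]
      have h5 : ∀ (ψ' : F ≃ₐ[ZMod p] F) (ω' : A ≃ₐ[ZMod p] A)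
          (hω' : IsHopf (ω' : A →ₐ[ZMod p] A)), ψ' = 1 → ω' = 1 →
          act (toZ σ) ψ' ω' hω' g = act (toZ σ) AlgEquiv.refl AlgEquiv.refl isHopf_refl g := by
        intro ψ' ω' hω' e1 e2
        subst e1
        subst e2
        rfl
      exact h5 _ _ _ (map_one ψ) (map_one ω)

end main

end Pool.Agent.K7.H53.LT
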