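import Pool.Agent.Y60.DC.Tb
import Mathlib.RingTheory.NoetherNormalization

/-!
# Generic points of rational varieties

`A` is a finitely generated domain over the field `k` whose field of fractions is `k(x)` with
algebraically independent `x j`.
-/

set_option autoImplicit false

open scoped IntermediateField.algebraAdjoinAdjoin
open IntermediateField

namespace Pool.Agent.K7.H53.LT

open Pool.Agent.Y60.DC (tb_of_alg tb_alg exists_iso tb_up)

section acl

variable {K U : Type} [Field K] [Field U] [Algebra K U]

/-- The elements algebraic over the field generated by `S`. -/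
def acl (K : Type) {U : Type} [Field K] [Field U] [Algebra K U] (S : Set U) :
    IntermediateField K U :=
  (algebraicClosure (adjoin K S) U).restrictScalars K

theorem mem_acl {S : Set U} {z : U} : z ∈ acl K S ↔ IsAlgebraic (adjoin K S) z := by
  unfold acl
  rw [IntermediateField.mem_restrictScalars]
  exact mem_algebraicClosure_iff

theorem subset_acl (S : Set U) {z : U} (hz : z ∈ S) : z ∈ acl K S :=
  mem_acl.2 (isAlgebraic_algebraMap (⟨z, subset_adjoin K S hz⟩ : adjoin K S))

theorem alg_acl (S : Set U) {z : U} (hz : IsAlgebraic K z) : z ∈ acl K S :=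
  mem_acl.2 (hz.tower_top _)

theorem adjoin_acl (S : Set U) : adjoin K S ≤ acl K S :=
  adjoin_le_iff.2 fun _ h => subset_acl S h

theorem acl_closed {S : Set U} {z : U} (hz : IsAlgebraic (acl K S) z) : z ∈ acl K S := by
  rw [mem_acl]
  let B := algebraicClosure (adjoin K S) U
  have h1 : IsAlgebraic B z := hz
  exact h1.restrictScalars (adjoin K S)

theorem acl_le {S T : Set U} (h : ∀ s ∈ T, s ∈ acl K S) : acl K T ≤ acl K S := by
  intro z hz
  apply acl_closed
  rw [mem_acl] at hz
  have hle : adjoin K T ≤ acl K S := adjoin_le_iff.2 h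
  let _ : Algebra (adjoin K T) (acl K S) := (inclusion hle).toRingHom.toAlgebra
  have : IsScalarTower (adjoin K T) (acl K S) U := IsScalarTower.of_algebraMap_eq fun _ => rfl
  exact hz.tower_top _

theorem tb_acl {ι : Type} [Finite ι] {u : ι → U} (hu : IsTranscendenceBasis K u) (x : ι → U)
    (h : ∀ i, u i ∈ acl K (Set.range x)) : IsTranscendenceBasis K x :=
  tb_of_alg hu x fun i => mem_acl.1 (h i)

theorem acl_top {ι : Type} {u : ι → U} (hu : IsTranscendenceBasis K u) (z : U) :
    z ∈ acl K (Set.range u) := mem_acl.2 (tb_alg hu z)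

end acl

section gen

variable {k A U ι : Type} [Field k] [CommRing A] [IsDomain A] [Algebra k A] [Field U] [Algebra k U]

/-- The elements `x j` are algebraically independent and generate the field of fractions. -/
structure IsRat (k : Type) {A ι : Type} [Field k] [CommRing A] [IsDomain A] [Algebra k A]
    (x : ι → FractionRing A) : Prop where
  indep : AlgebraicIndependent k x
  gen : adjoin k (Set.range x) = ⊤

/-- The extension to the field of fractions. -/
noncomputable def ex (f : A →ₐ[k] U) (hf : Function.Injective f) : FractionRing A →ₐ[k] U :=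
  IsFractionRing.liftAlgHom hf

theorem ex_alg (f : A →ₐ[k] U) (hf : Function.Injective f) (a : A) :
    ex f hf (algebraMap A (FractionRing A) a) = f a :=
  IsFractionRing.lift_algebraMap hf a

theorem ex_unique (f : A →ₐ[k] U) (hf : Function.Injective f) (F : FractionRing A →+* U)
    (h : ∀ a, F (algebraMap A (FractionRing A) a) = f a) (q : FractionRing A) :
    F q = ex f hf q := by
  have h1 : F = (ex f hf : FractionRing A →+* U) := by
    apply IsLocalization.ringHom_ext (nonZeroDivisors A)
    ext a
    exact (h a).trans (ex_alg f hf a).symm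
  rw [h1]
  rfl

theorem ex_mem {x : ι → FractionRing A} (hx : IsRat k x) (f : A →ₐ[k] U)
    (hf : Function.Injective f) (E : IntermediateField k U) (h : ∀ j, ex f hf (x j) ∈ E)
    (q : FractionRing A) : ex f hf q ∈ E := by
  have hq : q ∈ adjoin k (Set.range x) := by
    rw [hx.gen]
    trivial
  refine adjoin_induction (F := k) (s := Set.range x) (p := fun z _ => ex f hf z ∈ E)
    ?_ ?_ ?_ ?_ ?_ hq
  · rintro _ ⟨i, rfl⟩
    exact h i
  · intro c
    rw [AlgHom.commutes]
    exact E.algebraMap_mem c
  · intro a b _ _ ha hb
    rw [map_add]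
    exact E.add_mem ha hb
  · intro a _ ha
    rw [map_inv₀]
    exact E.inv_mem ha
  · intro a b _ _ ha hb
    rw [map_mul]
    exact E.mul_mem ha hb

theorem gen_ext {x : ι → FractionRing A} (hx : IsRat k x) (f g : A →ₐ[k] U)
    (hf : Function.Injective f) (hg : Function.Injective g)
    (h : ∀ j, ex f hf (x j) = ex g hg (x j)) : f = g := by
  have h1 : ∀ q, ex f hf q = ex g hg q := by
    intro q
    have hq : q ∈ adjoin k (Set.range x) := by
      rw [hx.gen]
      trivial
    refine adjoin_induction (F := k) (s := Set.range x) (p := fun z _ => ex f hf z = ex g hg z)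
      ?_ ?_ ?_ ?_ ?_ hq
    · rintro _ ⟨i, rfl⟩
      exact h i
    · intro c
      rw [AlgHom.commutes, AlgHom.commutes]
    · intro a b _ _ ha hb
      rw [map_add, map_add, ha, hb]
    · intro a _ ha
      rw [map_inv₀, map_inv₀, ha]
    · intro a b _ _ ha hb
      rw [map_mul, map_mul, ha, hb]
  apply AlgHom.ext
  intro a
  rw [← ex_alg f hf, ← ex_alg g hg, h1]

theorem exists_gen {x : ι → FractionRing A} (hx : IsRat k x) (z : ι → U)
    (hz : AlgebraicIndependent k z) :
    ∃ (f : A →ₐ[k] U) (hf : Function.Injective f), ∀ j, ex f hf (x j) = z j := by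
  let P := MvPolynomial ι k
  let e1 := hx.indep.aevalEquivField
  let e2 : adjoin k (Set.range x) ≃ₐ[k] FractionRing A :=
    (IntermediateField.equivOfEq hx.gen).trans IntermediateField.topEquiv
  let e := e1.trans e2
  have he : ∀ j, e (algebraMap P (FractionRing P) (MvPolynomial.X j)) = x j := by
    intro j
    change ((e1 (algebraMap P (FractionRing P) (MvPolynomial.X j)) :
      adjoin k (Set.range x)) : FractionRing A) = x j
    rw [AlgebraicIndependent.aevalEquivField_algebraMap_apply_coe, MvPolynomial.aeval_X]
  let F : FractionRing P →ₐ[k] U := IsFractionRing.liftAlgHom (g := MvPolynomial.aeval z) hz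
  have hF : ∀ j, F (algebraMap P (FractionRing P) (MvPolynomial.X j)) = z j := by
    intro j
    have h1 : F (algebraMap P (FractionRing P) (MvPolynomial.X j)) =
      MvPolynomial.aeval z (MvPolynomial.X j) := IsFractionRing.lift_algebraMap hz _
    rw [h1, MvPolynomial.aeval_X]
  let G : FractionRing A →ₐ[k] U := F.comp (e.symm : FractionRing A →ₐ[k] FractionRing P)
  have hG : ∀ j, G (x j) = z j := by
    intro j
    change F (e.symm (x j)) = z j
    rw [← he j, AlgEquiv.symm_apply_apply, hF]
  let f : A →ₐ[k] U := G.comp (Algebra.ofId A (FractionRing A) |>.restrictScalars k)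
  have hfa : ∀ a, f a = G (algebraMap A (FractionRing A) a) := fun a => rfl
  have hf : Function.Injective f := by
    intro a b hab
    rw [hfa, hfa] at hab
    exact IsFractionRing.injective A (FractionRing A) (G.toRingHom.injective hab)
  refine ⟨f, hf, fun j => ?_⟩
  rw [← hG j]
  exact (ex_unique f hf (G : FractionRing A →+* U) (fun a => (hfa a).symm) (x j)).symm

/-- Noether normalization: as many elements as there are `x j`. -/
theorem exists_noether [Finite ι] [Algebra.FiniteType k A] {x : ι → FractionRing A}
    (hx : IsRat k x) :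
    ∃ g : MvPolynomial ι k →ₐ[k] A, Function.Injective g ∧ g.toRingHom.IsIntegral := by
  obtain ⟨s, g, hg, hint⟩ := exists_integral_inj_algHom_of_fg k A
  have hxb : IsTranscendenceBasis k x := by
    rw [isTranscendenceBasis_iff_algebraicIndependent_isAlgebraic]
    refine ⟨hx.indep, ⟨fun z => ?_⟩⟩
    refine (IsFractionRing.isAlgebraic_iff (Algebra.adjoin k (Set.range x))
      (adjoin k (Set.range x)) (FractionRing A)).2 ?_
    have hz : z ∈ adjoin k (Set.range x) := by
      rw [hx.gen]
      trivial
    exact isAlgebraic_algebraMap (⟨z, hz⟩ : adjoin k (Set.range x))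
  let a : Fin s → FractionRing A := fun i => algebraMap A _ (g (MvPolynomial.X i))
  have ha : MvPolynomial.aeval a = (Algebra.ofId A (FractionRing A) |>.restrictScalars k).comp g := by
    apply MvPolynomial.algHom_ext
    intro i
    rw [MvPolynomial.aeval_X]
    rfl
  have hai : AlgebraicIndependent k a := by
    change Function.Injective (MvPolynomial.aeval a : MvPolynomial (Fin s) k →ₐ[k] FractionRing A)
    rw [ha]
    exact (IsFractionRing.injective A (FractionRing A)).comp hg
  have hab : IsTranscendenceBasis k a := by
    rw [isTranscendenceBasis_iff_algebraicIndependent_isAlgebraic]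
    refine ⟨hai, ?_⟩
    have h1 : ∀ b : A, IsAlgebraic (Algebra.adjoin k (Set.range a)) (algebraMap A (FractionRing A) b) := by
      intro b
      obtain ⟨P, hP1, hP2⟩ := hint b
      let φ : MvPolynomial (Fin s) k →+* Algebra.adjoin k (Set.range a) :=
        (MvPolynomial.aeval (fun i => (⟨a i, Algebra.subset_adjoin ⟨i, rfl⟩⟩ :
          Algebra.adjoin k (Set.range a))) : MvPolynomial (Fin s) k →ₐ[k] _).toRingHom
      have hφ : ∀ q, ((φ q : Algebra.adjoin k (Set.range a)) : FractionRing A) =
          algebraMap A (FractionRing A) (g q) := by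
        intro q
        have h2 : ((Algebra.adjoin k (Set.range a)).val.comp (MvPolynomial.aeval (fun i =>
          (⟨a i, Algebra.subset_adjoin ⟨i, rfl⟩⟩ : Algebra.adjoin k (Set.range a))))) =
          MvPolynomial.aeval a := by
          apply MvPolynomial.algHom_ext
          intro i
          simp
        have h3 := AlgHom.congr_fun h2 q
        rw [ha] at h3
        exact h3
      refine ⟨P.map φ, (hP1.map φ).ne_zero, ?_⟩
      rw [Polynomial.aeval_def, Polynomial.eval₂_map]
      have h4 : (algebraMap (Algebra.adjoin k (Set.range a)) (FractionRing A)).comp φ =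
          (algebraMap A (FractionRing A)).comp g.toRingHom := RingHom.ext hφ
      rw [h4, ← Polynomial.hom_eval₂, hP2, map_zero]
    refine ⟨fun z => ?_⟩
    obtain ⟨b, c, hc, rfl⟩ := IsFractionRing.div_surjective (A := A) z
    rw [div_eq_mul_inv]
    exact (h1 b).mul (h1 c).inv
  have hcard : Cardinal.mk (Fin s) = Cardinal.mk ι := hab.cardinalMk_eq hxb
  obtain ⟨e⟩ := Cardinal.eq.1 hcard
  let r : MvPolynomial ι k →ₐ[k] MvPolynomial (Fin s) k :=
    (MvPolynomial.renameEquiv k e.symm : MvPolynomial ι k ≃ₐ[k] MvPolynomial (Fin s) k)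
  have hr1 : Function.Injective r := (MvPolynomial.renameEquiv k e.symm).injective
  have hr2 : Function.Surjective r := (MvPolynomial.renameEquiv k e.symm).surjective
  refine ⟨g.comp r, fun a b hab => hr1 (hg hab), ?_⟩
  have h5 : (g.comp r).toRingHom = g.toRingHom.comp r.toRingHom := rfl
  rw [h5]
  exact RingHom.IsIntegral.trans _ _ (RingHom.isIntegral_of_surjective r.toRingHom hr2) hint

/-- **The counting lemma.** -/
theorem count_lemma {K J : Type} [Field K] [Algebra k K] [Algebra K U] [IsScalarTower k K U]
    [Finite J] [Finite ι] [Algebra.FiniteType k A] {x : ι → FractionRing A} (hx : IsRat k x)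
    {u : J × ι → U} (hu : IsTranscendenceBasis K u) (f : J → A →ₐ[k] U)
    (h : ∀ q, u q ∈ acl K (⋃ c, Set.range (f c))) :
    ∃ hf : ∀ c, Function.Injective (f c),
      IsTranscendenceBasis K fun q : J × ι => ex (f q.1) (hf q.1) (x q.2) := by
  obtain ⟨g, hg, hint⟩ := exists_noether hx
  let w : J × ι → U := fun q => f q.1 (g (MvPolynomial.X q.2))
  -- the values are algebraic over the `w`
  have h1 : ∀ c b, f c b ∈ acl K (Set.range w) := by
    intro c b
    rw [mem_acl]
    obtain ⟨P, hP1, hP2⟩ := hint b
    have hm : ∀ q, f c (g q) ∈ adjoin K (Set.range w) := by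
      intro q
      induction q using MvPolynomial.induction_on with
      | C r =>
        have h2 : f c (g (MvPolynomial.C r)) = algebraMap K U (algebraMap k K r) := by
          rw [← IsScalarTower.algebraMap_apply k K U]
          have h3 : (MvPolynomial.C r : MvPolynomial ι k) = algebraMap k _ r := rfl
          rw [h3, AlgHom.commutes, AlgHom.commutes]
        rw [h2]
        exact (adjoin K (Set.range w)).algebraMap_mem _
      | add p q hp hq =>
        rw [map_add, map_add]
        exact add_mem hp hq
      | mul_X p i hp =>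
        rw [map_mul, map_mul]
        exact mul_mem hp (subset_adjoin K _ ⟨(c, i), rfl⟩)
    let φ : MvPolynomial ι k →+* adjoin K (Set.range w) :=
      ((f c).toRingHom.comp g.toRingHom).codRestrict (adjoin K (Set.range w)) hm
    refine ⟨P.map φ, (hP1.map φ).ne_zero, ?_⟩
    rw [Polynomial.aeval_def, Polynomial.eval₂_map]
    have h4 : (algebraMap (adjoin K (Set.range w)) U).comp φ =
        (f c).toRingHom.comp g.toRingHom := RingHom.ext fun _ => rfl
    rw [h4]
    change Polynomial.eval₂ _ ((f c).toRingHom b) P = 0
    rw [← Polynomial.hom_eval₂, hP2, map_zero]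
  have hw : IsTranscendenceBasis K w := by
    refine tb_acl hu w fun q => ?_
    refine acl_le ?_ (h q)
    intro s hs
    obtain ⟨c, hc⟩ := Set.mem_iUnion.1 hs
    obtain ⟨b, rfl⟩ := hc
    exact h1 c b
  have hf : ∀ c, Function.Injective (f c) := by
    intro c
    have h2 : AlgebraicIndependent k (fun j => w (c, j)) := by
      have h3 : AlgebraicIndependent K (fun j => w (c, j)) :=
        hw.1.comp (fun j => (c, j)) fun i j hij => (Prod.mk.inj hij).2
      exact h3.restrictScalars (algebraMap k K).injective
    have h4 : (MvPolynomial.aeval (fun j => w (c, j)) : MvPolynomial ι k →ₐ[k] U) =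
        (f c).comp g := by
      apply MvPolynomial.algHom_ext
      intro i
      rw [MvPolynomial.aeval_X]
      rfl
    have h5 : Function.Injective ((f c).comp g) := by
      rw [← h4]
      exact h2
    let _ : Algebra (MvPolynomial ι k) A := g.toRingHom.toAlgebra
    have i1 : Algebra.IsIntegral (MvPolynomial ι k) A := ⟨hint⟩
    have h6 : RingHom.ker (f c).toRingHom = ⊥ := by
      apply Ideal.eq_bot_of_comap_eq_bot (R := MvPolynomial ι k)
      rw [eq_bot_iff]
      intro q hq
      have h7 : f c (g q) = 0 := hq
      have h8 : ((f c).comp g) q = ((f c).comp g) 0 := by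
        rw [map_zero]
        exact h7
      exact h5 h8
    exact (RingHom.injective_iff_ker_eq_bot (f c).toRingHom).2 h6
  refine ⟨hf, tb_acl hu _ fun q => acl_le ?_ (h q)⟩
  intro s hs
  obtain ⟨c, hc⟩ := Set.mem_iUnion.1 hs
  obtain ⟨b, rfl⟩ := hc
  rw [← ex_alg (f c) (hf c)]
  apply adjoin_acl
  let E := (adjoin K (Set.range fun q : J × ι => ex (f q.1) (hf q.1) (x q.2))).restrictScalars k
  exact ex_mem hx (f c) (hf c) E (fun j => subset_adjoin K _ ⟨(c, j), rfl⟩) _

end gen

end Pool.Agent.K7.H53.LT
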