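import Pool.Agent.K7.H53.LT.Fam
import Pool.Agent.K7.H53.LT.Gen

/-!
# Coordinates of families of generic points
-/

set_option autoImplicit false

namespace Pool.Agent.K7.H53.LT

section coord

variable {p : ℕ} [Fact p.Prime] {A F U κ ι : Type} [CommRing A] [IsDomain A]
  [HopfAlgebra (ZMod p) A] [CommRing F] [Algebra (ZMod p) F] [Field U] [Algebra (ZMod p) U]
  [Fintype κ] [Fintype ι]

/-- The family `g` consists of injective homomorphisms, with the coordinates `z`. -/
def IsCoord (x : ι → FractionRing A) (e : κ → F) (g : Fam p A F U) (z : κ × ι → U) : Prop :=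
  ∃ hg : ∀ c, Function.Injective (hom (g c)),
    ∀ c j, ex (hom (g c)) (hg c) (x j) = ∑ i, z (i, j) * c (e i)

theorem IsCoord.unique_g {x : ι → FractionRing A} (hx : IsRat (ZMod p) x) {e : κ → F}
    {g g' : Fam p A F U} {z : κ × ι → U} (h : IsCoord x e g z) (h' : IsCoord x e g' z) :
    g = g' := by
  obtain ⟨hg, h⟩ := h
  obtain ⟨hg', h'⟩ := h'
  funext c
  exact hom_injective (gen_ext hx _ _ (hg c) (hg' c) fun j => by rw [h, h'])

theorem IsCoord.unique_z [Finite F] [IsReduced F] [IsAlgClosed U] {x : ι → FractionRing A}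
    {e : Module.Basis κ (ZMod p) F}
    {g : Fam p A F U} {z z' : κ × ι → U} (h : IsCoord x e g z) (h' : IsCoord x e g z') :
    z = z' := by
  classical
  obtain ⟨D, h1, h2⟩ := exists_D (U := U) e
  have key : ∀ z : κ × ι → U, IsCoord x e g z → ∀ q, z q =
      ∑ c : F →ₐ[ZMod p] U, (∑ i, z (i, q.2) * c (e i)) * D q.1 c := by
    intro z hz q
    have h3 : ∑ c : F →ₐ[ZMod p] U, (∑ i, z (i, q.2) * c (e i)) * D q.1 c =
        ∑ i, z (i, q.2) * ∑ c : F →ₐ[ZMod p] U, c (e i) * D q.1 c := by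
      simp only [Finset.sum_mul, Finset.mul_sum]
      rw [Finset.sum_comm]
      refine Finset.sum_congr rfl fun i _ => Finset.sum_congr rfl fun c _ => by ring
    rw [h3]
    simp only [h1]
    rw [Finset.sum_eq_single q.1]
    · rw [if_pos rfl, mul_one]
    · intro i _ hi
      rw [if_neg hi, mul_zero]
    · intro hq
      exact absurd (Finset.mem_univ _) hq
  funext q
  rw [key z h q, key z' h' q]
  obtain ⟨hg, h⟩ := h
  obtain ⟨hg', h'⟩ := h'
  refine Finset.sum_congr rfl fun c _ => ?_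
  rw [← h, ← h']

/-- Families of injective homomorphisms have coordinates. -/
theorem exists_coord [Finite F] [IsReduced F] [IsAlgClosed U] (x : ι → FractionRing A)
    (e : Module.Basis κ (ZMod p) F) (g : Fam p A F U)
    (hg : ∀ c, Function.Injective (hom (g c))) :
    ∃ z : κ × ι → U, IsCoord x e g z ∧ ∃ D : κ → (F →ₐ[ZMod p] U) → U,
      (∀ i c, IsAlgebraic (ZMod p) (D i c)) ∧ ∀ q, z q =
      ∑ c : F →ₐ[ZMod p] U, ex (hom (g c)) (hg c) (x q.2) * D q.1 c := by
  classical
  obtain ⟨D, h1, h2⟩ := exists_D (U := U) e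
  refine ⟨fun q => ∑ c : F →ₐ[ZMod p] U, ex (hom (g c)) (hg c) (x q.2) * D q.1 c,
    ⟨hg, fun c j => ?_⟩, D, fun i c => D_alg h1 h2 i c, fun q => rfl⟩
  have h3 : ∑ i, (∑ c' : F →ₐ[ZMod p] U, ex (hom (g c')) (hg c') (x j) * D i c') * c (e i) =
      ∑ c' : F →ₐ[ZMod p] U, ex (hom (g c')) (hg c') (x j) * ∑ i, D i c' * c (e i) := by
    simp only [Finset.sum_mul, Finset.mul_sum]
    rw [Finset.sum_comm]
    refine Finset.sum_congr rfl fun i _ => Finset.sum_congr rfl fun c _ => by ring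
  change _ = ∑ i, (∑ c' : F →ₐ[ZMod p] U, ex (hom (g c')) (hg c') (x j) * D i c') * c (e i)
  rw [h3]
  simp only [h2]
  rw [Finset.sum_eq_single c]
  · rw [if_pos rfl, mul_one]
  · intro c' _ hc
    rw [if_neg hc, mul_zero]
  · intro hq
    exact absurd (Finset.mem_univ _) hq

/-- Families with given independent coordinates. -/
theorem exists_fam {x : ι → FractionRing A}
    (hx : IsRat (ZMod p) x) (e : Module.Basis κ (ZMod p) F) (z : κ × ι → U)
    (hz : ∀ c : F →ₐ[ZMod p] U, AlgebraicIndependent (ZMod p) fun j => ∑ i, z (i, j) * c (e i)) :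
    ∃ g : Fam p A F U, IsCoord x e g z := by
  choose g hg h using fun c : F →ₐ[ZMod p] U => exists_gen hx _ (hz c)
  exact ⟨fun c => pt (g c), hg, fun c j => h c j⟩

/-- The action on families in coordinates. -/
theorem IsCoord.act {x : ι → FractionRing A} {e : κ → F} {g : Fam p A F U} {z : κ × ι → U}
    (h : IsCoord x e g z) (σ : U ≃ₐ[ZMod p] U) (ψ : F ≃ₐ[ZMod p] F) (ω : A ≃ₐ[ZMod p] A)
    (hω : IsHopf (ω : A →ₐ[ZMod p] A)) (P : κ → κ → ZMod p)
    (hP : ∀ l, ψ (e l) = ∑ i, P i l • e i) (M : ι → ι → ZMod p)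
    (E : FractionRing A ≃+* FractionRing A)
    (hE1 : ∀ a, E (algebraMap A (FractionRing A) a) = algebraMap A (FractionRing A) (ω.symm a))
    (hE2 : ∀ j, E (x j) = ∑ i, M j i • x i) :
    IsCoord x e (act σ ψ ω hω g) fun q =>
      ∑ l, ∑ i, algebraMap (ZMod p) U (P q.1 l) * algebraMap (ZMod p) U (M q.2 i) *
        σ (z (l, i)) := by
  obtain ⟨hg, h⟩ := h
  have hinj : ∀ c, Function.Injective (hom (LT.act σ ψ ω hω g c)) := by
    intro c a b hab
    rw [act_apply, act_apply] at hab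
    exact ω.symm.injective (hg _ (σ.injective hab))
  refine ⟨hinj, fun c j => ?_⟩
  set c' : F →ₐ[ZMod p] U := (σ.symm : U →ₐ[ZMod p] U).comp (c.comp (ψ : F →ₐ[ZMod p] F)) with hc'
  have h1 : ∀ q, ex (hom (LT.act σ ψ ω hω g c)) (hinj c) q = σ (ex (hom (g c')) (hg c') (E q)) := by
    intro q
    let G : FractionRing A →+* U :=
      (σ : U →+* U).comp ((ex (hom (g c')) (hg c') : FractionRing A →+* U).comp
        (E : FractionRing A →+* FractionRing A))
    refine (ex_unique _ (hinj c) G (fun a => ?_) q).symm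
    change σ (ex (hom (g c')) (hg c') (E (algebraMap A (FractionRing A) a))) = _
    rw [hE1, ex_alg, act_apply]
  rw [h1, hE2, map_sum, map_sum]
  have h2 : ∀ l, σ (c' (e l)) = ∑ i, algebraMap (ZMod p) U (P i l) * c (e i) := by
    intro l
    have h3 : σ (c' (e l)) = c (ψ (e l)) := σ.apply_symm_apply _
    rw [h3, hP, map_sum]
    refine Finset.sum_congr rfl fun i _ => ?_
    rw [map_smul, Algebra.smul_def]
  have h4 : ∀ i, σ (ex (hom (g c')) (hg c') (M j i • x i)) =
      ∑ l, algebraMap (ZMod p) U (M j i) * (σ (z (l, i)) *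
        ∑ i', algebraMap (ZMod p) U (P i' l) * c (e i')) := by
    intro i
    rw [map_smul, map_smul, h, map_sum, Algebra.smul_def, Finset.mul_sum]
    refine Finset.sum_congr rfl fun l _ => ?_
    rw [map_mul, h2]
  simp only [h4]
  simp only [Finset.mul_sum, Finset.sum_mul]
  rw [Finset.sum_comm]
  have h5 : ∀ (f : κ → ι → κ → U), ∑ l, ∑ i, ∑ i', f l i i' = ∑ i', ∑ l, ∑ i, f l i i' := by
    intro f
    rw [Finset.sum_congr rfl fun l _ => Finset.sum_comm]
    rw [Finset.sum_comm]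
  rw [h5]
  refine Finset.sum_congr rfl fun i' _ => Finset.sum_congr rfl fun l _ =>
    Finset.sum_congr rfl fun i _ => by ring

end coord

end Pool.Agent.K7.H53.LT
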