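import Mathlib

/-!
# Finite reduced algebras over the prime field

`F` is a finite reduced commutative ring of characteristic `p`, `U` an algebraically closed field
of characteristic `p`.
-/

set_option autoImplicit false
set_option maxHeartbeats 400000

namespace Pool.Agent.K7.H53.LT

section fin

variable {p : ℕ} [Fact p.Prime] {F U κ : Type} [CommRing F] [Finite F] [Algebra (ZMod p) F]
  [Field U] [IsAlgClosed U] [Algebra (ZMod p) U]

omit [IsAlgClosed U] in
/-- The fixed elements of the Frobenius map. -/
theorem prime_field (y : U) (hy : y ^ p = y) : ∃ r : ZMod p, algebraMap (ZMod p) U r = y := by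
  classical
  have h1 : (Polynomial.X ^ p - Polynomial.X : Polynomial (ZMod p)) =
      ∏ a : ZMod p, (Polynomial.X - Polynomial.C a) := by
    have hp : 1 < p := (Fact.out : p.Prime).one_lt
    have hq : 1 < Fintype.card (ZMod p) := Fintype.one_lt_card
    have h4 := FiniteField.roots_X_pow_card_sub_X (ZMod p)
    have h5 := FiniteField.X_pow_card_sub_X_natDegree_eq (ZMod p) hq
    rw [ZMod.card] at h4 h5
    have h6 : (Polynomial.X ^ p - Polynomial.X : Polynomial (ZMod p)).Monic := by
      apply Polynomial.monic_X_pow_sub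
      rw [Polynomial.degree_X]
      exact_mod_cast hp
    have h7 := Polynomial.prod_multiset_X_sub_C_of_monic_of_roots_card_eq h6 (by
      rw [h4, h5]
      change Fintype.card (ZMod p) = p
      exact ZMod.card p)
    rw [h4] at h7
    exact h7.symm
  have h2 : (∏ a : ZMod p, (y - algebraMap (ZMod p) U a)) = 0 := by
    have h3 := congrArg (Polynomial.eval₂ (algebraMap (ZMod p) U) y) h1
    rw [Polynomial.eval₂_sub, Polynomial.eval₂_pow, Polynomial.eval₂_X, hy, sub_self,
      Polynomial.eval₂_finset_prod] at h3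
    rw [h3]
    refine Finset.prod_congr rfl fun a _ => ?_
    rw [Polynomial.eval₂_sub, Polynomial.eval₂_X, Polynomial.eval₂_C]
  obtain ⟨r, -, hr⟩ := Finset.prod_eq_zero_iff.1 h2
  exact ⟨r, (sub_eq_zero.1 hr).symm⟩

/-- The homomorphisms to `U` separate the elements. -/
theorem sep_points [IsReduced F] (x : F) (h : ∀ c : F →ₐ[ZMod p] U, c x = 0) : x = 0 := by
  by_contra hx
  have h1 : x ∉ nilradical F := by
    rw [nilradical_eq_zero]
    exact hx
  obtain ⟨P, hP, hxP⟩ : ∃ P : Ideal F, P.IsPrime ∧ x ∉ P := by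
    by_contra hcon
    push Not at hcon
    apply h1
    rw [nilradical_eq_sInf, Submodule.mem_sInf]
    exact fun P hP => hcon P hP
  have hfin : Finite (F ⧸ P) := Finite.of_surjective _ (Ideal.Quotient.mk_surjective (I := P))
  let _ : Field (F ⧸ P) := fieldOfFiniteDimensional (ZMod p) (F ⧸ P)
  let c0 : (F ⧸ P) →ₐ[ZMod p] U := IsAlgClosed.lift
  have h2 := h (c0.comp (Ideal.Quotient.mkₐ (ZMod p) P))
  have h3 : c0 (Ideal.Quotient.mk P x) = c0 0 := by
    rw [map_zero]
    exact h2
  have h4 := c0.toRingHom.injective h3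
  exact hxP (Ideal.Quotient.eq_zero_iff_mem.1 h4)

omit [IsAlgClosed U] in
theorem charP_U (p : ℕ) [Fact p.Prime] (U : Type) [Field U] [Algebra (ZMod p) U] : CharP U p :=
  charP_of_injective_algebraMap (algebraMap (ZMod p) U).injective p

/-- The Frobenius map on homomorphisms. -/
noncomputable def fro (c : F →ₐ[ZMod p] U) : F →ₐ[ZMod p] U :=
  have := charP_U p U
  { toRingHom := (frobenius U p).comp c.toRingHom
    commutes' := fun r => by
      change (c (algebraMap (ZMod p) F r)) ^ p = algebraMap (ZMod p) U r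
      rw [AlgHom.commutes, ← map_pow, ZMod.pow_card] }

omit [Finite F] [IsAlgClosed U] in
theorem fro_apply (c : F →ₐ[ZMod p] U) (r : F) : fro c r = c r ^ p := rfl

omit [Finite F] [IsAlgClosed U] in
theorem fro_injective : Function.Injective (fro : (F →ₐ[ZMod p] U) → F →ₐ[ZMod p] U) := by
  intro c c' h
  have := charP_U p U
  apply AlgHom.ext
  intro r
  have h1 : fro c r = fro c' r := by rw [h]
  exact frobenius_inj U p h1

noncomputable instance instFintypeHom : Fintype (F →ₐ[ZMod p] U) :=
  minpoly.AlgHom.fintype (ZMod p) F U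

omit [IsAlgClosed U] in
theorem fro_bijective : Function.Bijective (fro : (F →ₐ[ZMod p] U) → F →ₐ[ZMod p] U) :=
  Finite.injective_iff_bijective.1 fro_injective

/-- No linear relations with coefficients in `U`. -/
theorem no_rel [IsReduced F] [Fintype κ] (e : Module.Basis κ (ZMod p) F) (n : ℕ) :
    ∀ u : κ → U, {i | u i ≠ 0}.ncard = n → (∀ c : F →ₐ[ZMod p] U, ∑ i, u i * c (e i) = 0) →
      u = 0 := by
  classical
  have := charP_U p U
  induction n using Nat.strong_induction_on with
  | _ n ih =>
    intro u hn hu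
    by_contra hne
    obtain ⟨j, hj⟩ : ∃ j, u j ≠ 0 := by
      by_contra h
      push Not at h
      exact hne (funext h)
    let v : κ → U := fun i => (u j)⁻¹ * u i
    have hv : ∀ c : F →ₐ[ZMod p] U, ∑ i, v i * c (e i) = 0 := by
      intro c
      have h1 : ∑ i, v i * c (e i) = (u j)⁻¹ * ∑ i, u i * c (e i) := by
        rw [Finset.mul_sum]
        exact Finset.sum_congr rfl fun i _ => mul_assoc _ _ _
      rw [h1, hu, mul_zero]
    have hvj : v j = 1 := inv_mul_cancel₀ hj
    have hvp : ∀ c : F →ₐ[ZMod p] U, ∑ i, v i ^ p * c (e i) = 0 := by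
      intro c
      obtain ⟨c', rfl⟩ := fro_bijective.2 c
      have h1 : ∑ i, v i ^ p * fro c' (e i) = (∑ i, v i * c' (e i)) ^ p := by
        rw [sum_pow_char]
        refine Finset.sum_congr rfl fun i _ => ?_
        rw [fro_apply]
        exact (mul_pow _ _ _).symm
      rw [h1, hv, zero_pow (Fact.out : p.Prime).ne_zero]
    let w : κ → U := fun i => v i ^ p - v i
    have hw : ∀ c : F →ₐ[ZMod p] U, ∑ i, w i * c (e i) = 0 := by
      intro c
      have h1 : ∑ i, w i * c (e i) = ∑ i, v i ^ p * c (e i) - ∑ i, v i * c (e i) := by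
        rw [← Finset.sum_sub_distrib]
        exact Finset.sum_congr rfl fun i _ => sub_mul _ _ _
      rw [h1, hv, hvp, sub_zero]
    have hlt : {i | w i ≠ 0}.ncard < n := by
      rw [← hn]
      refine Set.ncard_lt_ncard ?_ (Set.toFinite _)
      · refine Set.ssubset_iff_exists.2 ⟨fun i hi => ?_, j, hj, ?_⟩
        · intro h0
          apply hi
          change v i ^ p - v i = 0
          have h1 : v i = 0 := by
            change (u j)⁻¹ * u i = 0
            rw [h0, mul_zero]
          rw [h1, zero_pow (Fact.out : p.Prime).ne_zero, sub_zero]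
        · intro h0
          apply h0
          change v j ^ p - v j = 0
          rw [hvj, one_pow, sub_self]
    have hw0 := ih _ hlt w rfl hw
    have hfix : ∀ i, v i ^ p = v i := fun i => sub_eq_zero.1 (congrFun hw0 i)
    choose r hr using fun i => prime_field (v i) (hfix i)
    have hx : ∑ i, r i • e i = 0 := by
      refine sep_points (p := p) (U := U) _ fun c => ?_
      rw [map_sum]
      rw [← hv c]
      refine Finset.sum_congr rfl fun i _ => ?_
      rw [map_smul, Algebra.smul_def, hr]
    have hrj := Fintype.linearIndependent_iff.1 e.linearIndependent r hx j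
    rw [← hr, hrj, map_zero] at hvj
    exact zero_ne_one hvj

open Classical in
/-- The dual matrix. -/
theorem exists_D [IsReduced F] [Fintype κ] (e : Module.Basis κ (ZMod p) F) :
    ∃ D : κ → (F →ₐ[ZMod p] U) → U,
      (∀ i j, ∑ c : F →ₐ[ZMod p] U, c (e i) * D j c = if i = j then 1 else 0) ∧
      (∀ c c' : F →ₐ[ZMod p] U, ∑ i, D i c * c' (e i) = if c = c' then 1 else 0) := by
  let f : (κ → U) →ₗ[U] ((F →ₐ[ZMod p] U) → U) :=
    { toFun := fun u c => ∑ i, u i * c (e i)
      map_add' := fun u v => by
        funext c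
        simp only [Pi.add_apply, add_mul, Finset.sum_add_distrib]
      map_smul' := fun a u => by
        funext c
        simp only [Pi.smul_apply, smul_eq_mul, RingHom.id_apply, Finset.mul_sum, mul_assoc] }
  have hf : ∀ u c, f u c = ∑ i, u i * c (e i) := fun _ _ => rfl
  have hfi : Function.Injective f := by
    rw [← LinearMap.ker_eq_bot, LinearMap.ker_eq_bot']
    intro u hu
    exact no_rel e _ u rfl fun c => congrFun hu c
  let g : ((F →ₐ[ZMod p] U) → U) →ₗ[U] (κ → U) :=
    { toFun := fun a i => ∑ c : F →ₐ[ZMod p] U, a c * c (e i)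
      map_add' := fun u v => by
        funext c
        simp only [Pi.add_apply, add_mul, Finset.sum_add_distrib]
      map_smul' := fun a u => by
        funext c
        simp only [Pi.smul_apply, smul_eq_mul, RingHom.id_apply, Finset.mul_sum, mul_assoc] }
  have hgi : Function.Injective g := by
    rw [← LinearMap.ker_eq_bot, LinearMap.ker_eq_bot']
    intro a ha
    have h1 := linearIndependent_toLinearMap (ZMod p) F U
    have h2 := Fintype.linearIndependent_iff.1 h1 a (by
      apply e.ext
      intro i
      have h3 := congrFun ha i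
      rw [LinearMap.sum_apply, LinearMap.zero_apply]
      exact h3)
    exact funext h2
  have hle1 := LinearMap.finrank_le_finrank_of_injective hfi
  have hle2 := LinearMap.finrank_le_finrank_of_injective hgi
  have hfs : Function.Surjective f :=
    (LinearMap.injective_iff_surjective_of_finrank_eq_finrank (le_antisymm hle1 hle2)).1 hfi
  let E := LinearEquiv.ofBijective f ⟨hfi, hfs⟩
  have hE : ∀ y, f (E.symm y) = y := fun y => E.apply_symm_apply y
  refine ⟨fun i c => E.symm (Pi.single c 1) i, fun i j => ?_, fun c c' => ?_⟩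
  · have h1 : f (Pi.single i 1) = ∑ c : F →ₐ[ZMod p] U, c (e i) • Pi.single c (1 : U) := by
      funext c
      rw [hf, Finset.sum_apply, Finset.sum_eq_single i, Finset.sum_eq_single c]
      · rw [Pi.single_eq_same, Pi.smul_apply, Pi.single_eq_same, smul_eq_mul, mul_one, one_mul]
      · intro c' _ hc
        rw [Pi.smul_apply, Pi.single_eq_of_ne (Ne.symm hc), smul_zero]
      · intro h
        exact absurd (Finset.mem_univ _) h
      · intro k _ hk
        rw [Pi.single_eq_of_ne hk, zero_mul]
      · intro h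
        exact absurd (Finset.mem_univ _) h
    have h2 : (Pi.single i 1 : κ → U) = ∑ c : F →ₐ[ZMod p] U, c (e i) • E.symm (Pi.single c 1) := by
      apply hfi
      rw [h1, map_sum]
      refine Finset.sum_congr rfl fun c _ => ?_
      rw [map_smul, hE]
    have h3 := congrFun h2 j
    rw [Finset.sum_apply] at h3
    simp only [Pi.smul_apply, smul_eq_mul] at h3
    rw [← h3, Pi.single_apply]
    by_cases hij : i = j
    · rw [if_pos hij, if_pos hij.symm]
    · rw [if_neg hij, if_neg (Ne.symm hij)]
  · have h1 := congrFun (hE (Pi.single c 1)) c'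
    rw [hf] at h1
    rw [h1, Pi.single_apply]
    by_cases hcc : c = c'
    · rw [if_pos hcc, if_pos hcc.symm]
    · rw [if_neg hcc, if_neg (Ne.symm hcc)]

open Classical in
/-- The dual matrix and the Frobenius map. -/
theorem D_fro [Fintype κ] {e : Module.Basis κ (ZMod p) F}
    {D : κ → (F →ₐ[ZMod p] U) → U}
    (h1 : ∀ i j, ∑ c : F →ₐ[ZMod p] U, c (e i) * D j c = if i = j then 1 else 0)
    (h2 : ∀ c c' : F →ₐ[ZMod p] U, ∑ i, D i c * c' (e i) = if c = c' then 1 else 0)
    (j : κ) (c0 : F →ₐ[ZMod p] U) : D j (fro c0) = D j c0 ^ p := by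
  have := charP_U p U
  -- `Σ_c (fro c) (e i) * (D j c)^p = δ`
  have h3 : ∀ i, ∑ c : F →ₐ[ZMod p] U, fro c (e i) * D j c ^ p = if i = j then 1 else 0 := by
    intro i
    have h4 : ∑ c : F →ₐ[ZMod p] U, fro c (e i) * D j c ^ p =
        (∑ c : F →ₐ[ZMod p] U, c (e i) * D j c) ^ p := by
      rw [sum_pow_char]
      exact Finset.sum_congr rfl fun c _ => by rw [fro_apply, mul_pow]
    rw [h4, h1]
    split_ifs
    · exact one_pow p
    · exact zero_pow (Fact.out : p.Prime).ne_zero
  have h5 : ∑ i, D i (fro c0) * ∑ c : F →ₐ[ZMod p] U, fro c (e i) * D j c ^ p = D j c0 ^ p := by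
    have h6 : ∑ i, D i (fro c0) * ∑ c : F →ₐ[ZMod p] U, fro c (e i) * D j c ^ p =
        ∑ c : F →ₐ[ZMod p] U, (∑ i, D i (fro c0) * fro c (e i)) * D j c ^ p := by
      simp only [Finset.mul_sum, Finset.sum_mul]
      rw [Finset.sum_comm]
      refine Finset.sum_congr rfl fun c _ => Finset.sum_congr rfl fun i _ => by ring
    rw [h6]
    simp only [h2]
    rw [Finset.sum_eq_single c0]
    · rw [if_pos rfl, one_mul]
    · intro c _ hc
      rw [if_neg fun h => hc (fro_injective h).symm, zero_mul]
    · intro h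
      exact absurd (Finset.mem_univ _) h
  rw [← h5]
  simp only [h3]
  rw [Finset.sum_eq_single j]
  · rw [if_pos rfl, mul_one]
  · intro i _ hi
    rw [if_neg hi, mul_zero]
  · intro h
    exact absurd (Finset.mem_univ _) h

open Classical in
theorem D_alg [Fintype κ] {e : Module.Basis κ (ZMod p) F}
    {D : κ → (F →ₐ[ZMod p] U) → U}
    (h1 : ∀ i j, ∑ c : F →ₐ[ZMod p] U, c (e i) * D j c = if i = j then 1 else 0)
    (h2 : ∀ c c' : F →ₐ[ZMod p] U, ∑ i, D i c * c' (e i) = if c = c' then 1 else 0)
    (j : κ) (c : F →ₐ[ZMod p] U) : IsAlgebraic (ZMod p) (D j c) := by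
  have h3 : ∀ n : ℕ, D j (fro^[n] c) = D j c ^ p ^ n := by
    intro n
    induction n with
    | zero => rw [pow_zero, pow_one]; rfl
    | succ n ih =>
      rw [Function.iterate_succ_apply', D_fro h1 h2, ih, ← pow_mul, ← pow_succ]
  obtain ⟨n, hn, hc⟩ := Function.Injective.mem_periodicPts fro_injective c
  have h4 : D j c ^ p ^ n = D j c := by
    rw [← h3, show fro^[n] c = c from hc]
  refine ⟨Polynomial.X ^ p ^ n - Polynomial.X, ?_, ?_⟩
  · have h5 : 1 < p ^ n := Nat.one_lt_pow (by omega) (Fact.out : p.Prime).one_lt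
    exact (Polynomial.monic_X_pow_sub (by
      rw [Polynomial.degree_X]
      exact_mod_cast h5)).ne_zero
  · rw [map_sub, map_pow, Polynomial.aeval_X, h4, sub_self]

/-- Descent: functions which are compatible with the Frobenius map come from elements of `F`. -/
theorem descent [IsReduced F] (f : (F →ₐ[ZMod p] U) → U) (hf : ∀ c, f (fro c) = f c ^ p) :
    ∃ r : F, ∀ c : F →ₐ[ZMod p] U, c r = f c := by
  classical
  have := charP_U p U
  let e := Module.finBasis (ZMod p) F
  obtain ⟨D, h1, h2⟩ := exists_D (U := U) e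
  let R : Fin (Module.finrank (ZMod p) F) → U := fun i => ∑ c : F →ₐ[ZMod p] U, f c * D i c
  have hR : ∀ i, R i ^ p = R i := by
    intro i
    change (∑ c : F →ₐ[ZMod p] U, f c * D i c) ^ p = ∑ c : F →ₐ[ZMod p] U, f c * D i c
    rw [sum_pow_char]
    rw [← (Equiv.ofBijective _ (fro_bijective (p := p) (F := F) (U := U))).sum_comp
      (fun c => f c * D i c)]
    refine Finset.sum_congr rfl fun c _ => ?_
    change _ = f (fro c) * D i (fro c)
    rw [hf, D_fro h1 h2, mul_pow]
  choose r hr using fun i => prime_field (R i) (hR i)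
  refine ⟨∑ i, r i • e i, fun c => ?_⟩
  rw [map_sum]
  have h3 : ∀ i, c (r i • e i) = ∑ c' : F →ₐ[ZMod p] U, f c' * (D i c' * c (e i)) := by
    intro i
    rw [map_smul, Algebra.smul_def, hr]
    change (∑ c' : F →ₐ[ZMod p] U, f c' * D i c') * c (e i) = _
    rw [Finset.sum_mul]
    exact Finset.sum_congr rfl fun c' _ => mul_assoc _ _ _
  simp only [h3]
  rw [Finset.sum_comm]
  simp only [← Finset.mul_sum, h2]
  rw [Finset.sum_eq_single c]
  · rw [if_pos rfl, mul_one]
  · intro c' _ hc
    rw [if_neg hc, mul_zero]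
  · intro h
    exact absurd (Finset.mem_univ _) h

end fin

end Pool.Agent.K7.H53.LT
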