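import Pool.Agent.K7.H53.LT.Pts
import Pool.Agent.K7.H53.LT.Dual

/-!
# Families of points and the twisted Frobenius map

`F` is a finite reduced ring, `U` an algebraically closed field of characteristic `p`. The families
`(g c)`, `c : F → U`, of points with values in `U` are the points with values in `U ⊗ F`.
-/

set_option autoImplicit false

open Algebra Coalgebra Bialgebra TensorProduct WithConv

namespace Pool.Agent.K7.H53.LT

section hopf

variable {k A B : Type} [Field k] [CommRing A] [HopfAlgebra k A] [CommRing B] [Algebra k B]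

/-- `f : A → A` is compatible with the comultiplication: it is the comorphism of an endomorphism of
the group scheme with coordinate ring `A`. -/
def IsHopf (f : A →ₐ[k] A) : Prop :=
  ∀ a, comulAlgHom k A (f a) = Algebra.TensorProduct.map f f (comulAlgHom k A a)

theorem IsHopf.mulPt {f : A →ₐ[k] A} (hf : IsHopf f) (g h : A →ₐ[k] B) :
    (mulPt g h).comp f = mulPt (g.comp f) (h.comp f) := by
  apply AlgHom.ext
  intro a
  change (Algebra.TensorProduct.lift g h fun _ _ => Commute.all _ _) (comulAlgHom k A (f a)) =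
    (Algebra.TensorProduct.lift (g.comp f) (h.comp f) fun _ _ => Commute.all _ _)
      (comulAlgHom k A a)
  rw [hf]
  induction (comulAlgHom k A a) using TensorProduct.induction_on with
  | zero => rw [map_zero, map_zero, map_zero]
  | tmul x y =>
    rw [Algebra.TensorProduct.map_tmul, Algebra.TensorProduct.lift_tmul,
      Algebra.TensorProduct.lift_tmul]
    rfl
  | add x y hx hy => rw [map_add, map_add, map_add, hx, hy]

/-- Composition with an endomorphism of the group scheme. -/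
noncomputable def pre' (f : A →ₐ[k] A) (hf : IsHopf f) : Pts k A B →* Pts k A B :=
  MonoidHom.mk' (fun g => pt ((hom g).comp f)) fun g h => hf.mulPt (hom g) (hom h)

theorem pre'_apply (f : A →ₐ[k] A) (hf : IsHopf f) (g : Pts k A B) (a : A) :
    hom (pre' f hf g) a = hom g (f a) := rfl

theorem IsHopf.symm {w : A ≃ₐ[k] A} (hw : IsHopf (w : A →ₐ[k] A)) :
    IsHopf (w.symm : A →ₐ[k] A) := by
  intro a
  have h1 := hw (w.symm a)
  have h2 : (w : A →ₐ[k] A) (w.symm a) = a := w.apply_symm_apply a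
  rw [h2] at h1
  have h3 : (Algebra.TensorProduct.map (w.symm : A →ₐ[k] A) (w.symm : A →ₐ[k] A)).comp
      (Algebra.TensorProduct.map (w : A →ₐ[k] A) (w : A →ₐ[k] A)) = AlgHom.id k _ := by
    apply Algebra.TensorProduct.ext
    · apply AlgHom.ext
      intro x
      simp
    · apply AlgHom.ext
      intro x
      simp
  rw [h1]
  exact (AlgHom.congr_fun h3 _).symm

end hopf

section fam

variable {p : ℕ} [Fact p.Prime] {A F U : Type} [CommRing A] [HopfAlgebra (ZMod p) A]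
  [CommRing F] [Algebra (ZMod p) F] [Field U] [Algebra (ZMod p) U]

/-- Families of points. -/
abbrev Fam (p : ℕ) [Fact p.Prime] (A F U : Type) [CommRing A] [HopfAlgebra (ZMod p) A]
    [CommRing F] [Algebra (ZMod p) F] [Field U] [Algebra (ZMod p) U] : Type :=
  (F →ₐ[ZMod p] U) → Pts (ZMod p) A U

/-- The twisted Frobenius map. -/
noncomputable def Phi (φ : A →ₐ[ZMod p] A) (hφ : IsHopf φ) (θ : F ≃ₐ[ZMod p] F) :
    Fam p A F U →* Fam p A F U :=
  MonoidHom.mk' (fun g c => pre' φ hφ (g (c.comp (θ.symm : F →ₐ[ZMod p] F)))) fun g h => by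
    funext c
    exact map_mul (pre' φ hφ) _ _

/-- Points with values in `F` as families. -/
noncomputable def emb : Pts (ZMod p) A F →* Fam p A F U :=
  MonoidHom.mk' (fun t c => post c t) fun s t => by
    funext c
    exact map_mul (post c) _ _

/-- The action of automorphisms of `U`, `F` and `A` on families. -/
noncomputable def act (σ : U ≃ₐ[ZMod p] U) (ψ : F ≃ₐ[ZMod p] F) (ω : A ≃ₐ[ZMod p] A)
    (hω : IsHopf (ω : A →ₐ[ZMod p] A)) : Fam p A F U →* Fam p A F U :=
  MonoidHom.mk' (fun g c => post (σ : U →ₐ[ZMod p] U) (pre' (ω.symm : A →ₐ[ZMod p] A) hω.symm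
    (g ((σ.symm : U →ₐ[ZMod p] U).comp (c.comp (ψ : F →ₐ[ZMod p] F)))))) fun g h => by
    funext c
    change post _ (pre' _ _ (g _ * h _)) = post _ (pre' _ _ (g _)) * post _ (pre' _ _ (h _))
    rw [map_mul, map_mul]

/-- The action of automorphisms of `F` and `A` on the points with values in `F`. -/
noncomputable def tact (ψ : F ≃ₐ[ZMod p] F) (ω : A ≃ₐ[ZMod p] A)
    (hω : IsHopf (ω : A →ₐ[ZMod p] A)) : Pts (ZMod p) A F →* Pts (ZMod p) A F :=
  (post (ψ : F →ₐ[ZMod p] F)).comp (pre' (ω.symm : A →ₐ[ZMod p] A) hω.symm)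

theorem Phi_apply (φ : A →ₐ[ZMod p] A) (hφ : IsHopf φ) (θ : F ≃ₐ[ZMod p] F) (g : Fam p A F U)
    (c : F →ₐ[ZMod p] U) (a : A) :
    hom (Phi φ hφ θ g c) a = hom (g (c.comp (θ.symm : F →ₐ[ZMod p] F))) (φ a) := rfl

theorem emb_apply (t : Pts (ZMod p) A F) (c : F →ₐ[ZMod p] U) (a : A) :
    hom (emb t c) a = c (hom t a) := rfl

theorem act_apply (σ : U ≃ₐ[ZMod p] U) (ψ : F ≃ₐ[ZMod p] F) (ω : A ≃ₐ[ZMod p] A)
    (hω : IsHopf (ω : A →ₐ[ZMod p] A)) (g : Fam p A F U) (c : F →ₐ[ZMod p] U) (a : A) :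
    hom (act σ ψ ω hω g c) a =
      σ (hom (g ((σ.symm : U →ₐ[ZMod p] U).comp (c.comp (ψ : F →ₐ[ZMod p] F)))) (ω.symm a)) := rfl

theorem tact_apply (ψ : F ≃ₐ[ZMod p] F) (ω : A ≃ₐ[ZMod p] A)
    (hω : IsHopf (ω : A →ₐ[ZMod p] A)) (t : Pts (ZMod p) A F) (a : A) :
    hom (tact ψ ω hω t) a = ψ (hom t (ω.symm a)) := rfl

theorem fam_ext {g h : Fam p A F U} (H : ∀ c a, hom (g c) a = hom (h c) a) : g = h :=
  funext fun c => pts_ext (H c)

theorem act_mul (σ σ' : U ≃ₐ[ZMod p] U) (ψ ψ' : F ≃ₐ[ZMod p] F) (ω ω' : A ≃ₐ[ZMod p] A)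
    (hω : IsHopf (ω : A →ₐ[ZMod p] A)) (hω' : IsHopf (ω' : A →ₐ[ZMod p] A))
    (hωω : IsHopf ((ω * ω' : A ≃ₐ[ZMod p] A) : A →ₐ[ZMod p] A)) (g : Fam p A F U) :
    act (σ * σ') (ψ * ψ') (ω * ω') hωω g = act σ ψ ω hω (act σ' ψ' ω' hω' g) := by
  apply fam_ext
  intro c a
  rw [act_apply, act_apply, act_apply]
  rfl

theorem act_emb (σ : U ≃ₐ[ZMod p] U) (ψ : F ≃ₐ[ZMod p] F) (ω : A ≃ₐ[ZMod p] A)
    (hω : IsHopf (ω : A →ₐ[ZMod p] A)) (t : Pts (ZMod p) A F) :
    act σ ψ ω hω (emb t : Fam p A F U) = emb (tact ψ ω hω t) := by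
  apply fam_ext
  intro c a
  rw [act_apply, emb_apply, emb_apply, tact_apply]
  exact σ.apply_symm_apply _

theorem Phi_emb (φ : A →ₐ[ZMod p] A) (hφ : IsHopf φ) (θ : F ≃ₐ[ZMod p] F)
    (t : Pts (ZMod p) A F) (ht : ∀ a, hom t (φ a) = θ (hom t a)) :
    Phi φ hφ θ (emb t : Fam p A F U) = emb t := by
  apply fam_ext
  intro c a
  rw [Phi_apply, emb_apply, emb_apply]
  change c (θ.symm (hom t (φ a))) = c (hom t a)
  rw [ht, AlgEquiv.symm_apply_apply]

theorem Phi_act (φ : A →ₐ[ZMod p] A) (hφ : IsHopf φ) (θ : F ≃ₐ[ZMod p] F)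
    (σ : U ≃ₐ[ZMod p] U) (ψ : F ≃ₐ[ZMod p] F) (ω : A ≃ₐ[ZMod p] A)
    (hω : IsHopf (ω : A →ₐ[ZMod p] A)) (h1 : ∀ a, ω (φ a) = φ (ω a)) (h2 : ψ * θ = θ * ψ)
    (g : Fam p A F U) :
    Phi φ hφ θ (act σ ψ ω hω g) = act σ ψ ω hω (Phi φ hφ θ g) := by
  apply fam_ext
  intro c a
  rw [Phi_apply, act_apply, act_apply, Phi_apply]
  have h3 : ω.symm (φ a) = φ (ω.symm a) := by
    apply ω.injective
    rw [AlgEquiv.apply_symm_apply, h1, AlgEquiv.apply_symm_apply]
  have h4 : ∀ r, θ.symm (ψ r) = ψ (θ.symm r) := by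
    intro r
    apply θ.injective
    rw [AlgEquiv.apply_symm_apply]
    have h5 := congrArg (fun e : F ≃ₐ[ZMod p] F => e (θ.symm r)) h2
    change ψ (θ (θ.symm r)) = θ (ψ (θ.symm r)) at h5
    rw [AlgEquiv.apply_symm_apply] at h5
    exact h5
  rw [h3]
  congr 3
  apply congrArg g
  apply AlgHom.ext
  intro r
  change σ.symm (c (θ.symm (ψ r))) = σ.symm (c (ψ (θ.symm r)))
  rw [h4]

theorem emb_injective [Finite F] [IsReduced F] [IsAlgClosed U] :
    Function.Injective (emb : Pts (ZMod p) A F →* Fam p A F U) := by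
  intro s t h
  refine pts_ext fun a => sub_eq_zero.1 (sep_points (p := p) (U := U) _ fun c => ?_)
  have h1 : hom ((emb s : Fam p A F U) c) a = hom ((emb t : Fam p A F U) c) a := by rw [h]
  rw [emb_apply, emb_apply] at h1
  rw [map_sub, h1, sub_self]

/-- The fixed points of the twisted Frobenius map. -/
theorem exists_of_Phi [Finite F] [IsReduced F] [IsAlgClosed U] (φ : A →ₐ[ZMod p] A)
    (hφ : IsHopf φ) (θ : F ≃ₐ[ZMod p] F) (m : ℕ) (hm1 : ∀ a, φ^[m] a = a ^ p)
    (hm2 : ∀ r, θ^[m] r = r ^ p) (g : Fam p A F U) (hg : Phi φ hφ θ g = g) :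
    ∃ t : Pts (ZMod p) A F, (∀ a, hom t (φ a) = θ (hom t a)) ∧ g = emb t := by
  -- the relation
  have h1 : ∀ (c : F →ₐ[ZMod p] U) a, hom (g (c.comp (θ : F →ₐ[ZMod p] F))) a =
      hom (g c) (φ a) := by
    intro c a
    have h2 := congrArg (fun h : Fam p A F U => hom (h (c.comp (θ : F →ₐ[ZMod p] F))) a) hg
    change hom (g ((c.comp (θ : F →ₐ[ZMod p] F)).comp (θ.symm : F →ₐ[ZMod p] F))) (φ a) = _ at h2
    have h6 : (c.comp (θ : F →ₐ[ZMod p] F)).comp (θ.symm : F →ₐ[ZMod p] F) = c := by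
      apply AlgHom.ext
      intro r
      change c (θ (θ.symm r)) = c r
      rw [AlgEquiv.apply_symm_apply]
    rw [← h2, h6]
  have h3 : ∀ (i : ℕ) (c : F →ₐ[ZMod p] U) (c' : F →ₐ[ZMod p] U), (∀ r, c' r = c (θ^[i] r)) →
      ∀ a, hom (g c') a = hom (g c) (φ^[i] a) := by
    intro i
    induction i with
    | zero =>
      intro c c' h a
      have h4 : c' = c := AlgHom.ext h
      rw [h4]
      rfl
    | succ i ih =>
      intro c c' h a
      have h5 := ih (c.comp (θ : F →ₐ[ZMod p] F)) c' (fun r => by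
        rw [h r, Function.iterate_succ_apply']
        rfl) a
      rw [h5, h1, ← Function.iterate_succ_apply' (f := φ)]
  have h4 : ∀ (c : F →ₐ[ZMod p] U) a, hom (g (fro c)) a = hom (g c) a ^ p := by
    intro c a
    rw [h3 m c (fro c) (fun r => by rw [fro_apply, hm2, map_pow]) a, hm1, map_pow]
  choose t ht using fun a => descent (p := p) (F := F) (fun c : F →ₐ[ZMod p] U => hom (g c) a)
    fun c => h4 c a
  have hinj : ∀ r s : F, (∀ c : F →ₐ[ZMod p] U, c r = c s) → r = s := fun r s h =>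
    sub_eq_zero.1 (sep_points (p := p) (U := U) _ fun c => by rw [map_sub, h, sub_self])
  let T : A →ₐ[ZMod p] F :=
    { toFun := t
      map_one' := hinj _ _ fun c => by rw [ht, map_one, map_one]
      map_mul' := fun a b => hinj _ _ fun c => by rw [ht, map_mul, map_mul, ht, ht]
      map_zero' := hinj _ _ fun c => by rw [ht, map_zero, map_zero]
      map_add' := fun a b => hinj _ _ fun c => by rw [ht, map_add, map_add, ht, ht]
      commutes' := fun a => hinj _ _ fun c => by rw [ht, AlgHom.commutes, AlgHom.commutes] }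
  have hT : ∀ (c : F →ₐ[ZMod p] U) a, c (T a) = hom (g c) a := fun c a => ht a c
  refine ⟨pt T, fun a => ?_, fam_ext fun c a => (hT c a).symm⟩
  refine hinj _ _ fun c => ?_
  change c (T (φ a)) = c (θ (T a))
  rw [hT, ← h1, ← hT]
  rfl

end fam

end Pool.Agent.K7.H53.LT
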