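import Pool.Agent.K7.H53.LT.TbC

/-!
# The Lang map
-/

set_option autoImplicit false
set_option maxHeartbeats 400000

open IntermediateField

namespace Pool.Agent.K7.H53.LT

open Pool.Agent.Y60.DC (tb_up exists_iso)

section act

variable {p : ℕ} [Fact p.Prime] {A F U : Type} [CommRing A]
  [HopfAlgebra (ZMod p) A] [CommRing F] [Finite F]
  [Algebra (ZMod p) F] [Field U] [IsAlgClosed U] [Algebra (ZMod p) U]

omit [Finite F] [IsAlgClosed U] in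
theorem isHopf_refl : IsHopf ((AlgEquiv.refl : A ≃ₐ[ZMod p] A) : A →ₐ[ZMod p] A) := by
  intro a
  have h1 : ((AlgEquiv.refl : A ≃ₐ[ZMod p] A) : A →ₐ[ZMod p] A) = AlgHom.id (ZMod p) A := rfl
  rw [h1, Algebra.TensorProduct.map_id]
  rfl

omit [IsAlgClosed U] [Finite F] in
/-- The elements of the group determine automorphisms which fix the Lang map. -/
theorem lang_act (φ : A →ₐ[ZMod p] A) (hφ : IsHopf φ) (θ : F ≃ₐ[ZMod p] F)
    {g h : Fam p A F U} (hh : h = Phi φ hφ θ g * g⁻¹)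
    (σ : U ≃ₐ[ZMod p] U) (ψ : F ≃ₐ[ZMod p] F) (ω : A ≃ₐ[ZMod p] A)
    (hω : IsHopf (ω : A →ₐ[ZMod p] A)) (h1 : ∀ a, ω (φ a) = φ (ω a)) (h2 : ψ * θ = θ * ψ)
    (t : Pts (ZMod p) A F) (ht : ∀ a, hom t (φ a) = θ (hom t a))
    (hg : act σ ψ ω hω g = g * emb t) : act σ ψ ω hω h = h := by
  rw [hh, map_mul, map_inv, ← Phi_act φ hφ θ σ ψ ω hω h1 h2, hg, map_mul, Phi_emb φ hφ θ t ht,
    mul_inv_rev, mul_assoc, mul_inv_cancel_left]

/-- Automorphisms which fix the Lang map determine elements of the group. -/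
theorem act_lang [IsReduced F] (φ : A →ₐ[ZMod p] A) (hφ : IsHopf φ) (θ : F ≃ₐ[ZMod p] F) (m : ℕ)
    (hm1 : ∀ a, φ^[m] a = a ^ p) (hm2 : ∀ r, θ^[m] r = r ^ p)
    {g h : Fam p A F U} (hh : h = Phi φ hφ θ g * g⁻¹)
    (σ : U ≃ₐ[ZMod p] U) (ψ : F ≃ₐ[ZMod p] F) (ω : A ≃ₐ[ZMod p] A)
    (hω : IsHopf (ω : A →ₐ[ZMod p] A)) (h1 : ∀ a, ω (φ a) = φ (ω a)) (h2 : ψ * θ = θ * ψ)
    (hf : act σ ψ ω hω h = h) :
    ∃ t : Pts (ZMod p) A F, (∀ a, hom t (φ a) = θ (hom t a)) ∧ act σ ψ ω hω g = g * emb t := by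
  have h3 : Phi φ hφ θ g = h * g := by rw [hh, inv_mul_cancel_right]
  have h4 : Phi φ hφ θ (act σ ψ ω hω g) = h * act σ ψ ω hω g := by
    rw [Phi_act φ hφ θ σ ψ ω hω h1 h2, h3, map_mul, hf]
  have h5 : Phi φ hφ θ (g⁻¹ * act σ ψ ω hω g) = g⁻¹ * act σ ψ ω hω g := by
    rw [map_mul, map_inv, h3, h4, mul_inv_rev, mul_assoc, inv_mul_cancel_left]
  obtain ⟨t, ht1, ht2⟩ := exists_of_Phi φ hφ θ m hm1 hm2 _ h5
  refine ⟨t, ht1, ?_⟩
  rw [← ht2, mul_inv_cancel_left]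

/-- Automorphisms of fields as automorphisms over the prime field. -/
def toZ {E : Type} [Field E] [Algebra E U] (σ : U ≃ₐ[E] U) : U ≃ₐ[ZMod p] U :=
  AlgEquiv.ofRingEquiv (f := σ.toRingEquiv) fun r =>
    RingHom.congr_fun (Subsingleton.elim (((σ.toRingEquiv : U ≃+* U) : U →+* U).comp
      (algebraMap (ZMod p) U)) (algebraMap (ZMod p) U)) r

omit [IsAlgClosed U] in
theorem toZ_apply {E : Type} [Field E] [Algebra E U] (σ : U ≃ₐ[E] U) (z : U) :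
    (toZ σ : U ≃ₐ[ZMod p] U) z = σ z := rfl

omit [IsAlgClosed U] in
theorem toZ_mul {E : Type} [Field E] [Algebra E U] (σ τ : U ≃ₐ[E] U) :
    (toZ (σ * τ) : U ≃ₐ[ZMod p] U) = toZ σ * toZ τ := rfl

end act

section main

variable {p : ℕ} [Fact p.Prime] {A F K U κ ι : Type} [CommRing A] [IsDomain A]
  [HopfAlgebra (ZMod p) A] [CommRing F] [Finite F]
  [Algebra (ZMod p) F] [Field K] [Algebra (ZMod p) K] [Field U] [IsAlgClosed U]
  [Algebra (ZMod p) U] [Algebra K U] [IsScalarTower (ZMod p) K U]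
  [Fintype κ] [Fintype ι] [Algebra.FiniteType (ZMod p) A]

omit [IsDomain A] [Algebra.FiniteType (ZMod p) A] [Algebra (ZMod p) K]
  [IsScalarTower (ZMod p) K U] in
theorem act_refl_fix {E : Type} [Field E] [Algebra E U] (σ : U ≃ₐ[E] U) {h : Fam p A F U}
    (h1 : ∀ (c : F →ₐ[ZMod p] U) (r : F), σ (c r) = c r) (h2 : ∀ c a, σ (hom (h c) a) = hom (h c) a) :
    act (toZ σ) AlgEquiv.refl AlgEquiv.refl isHopf_refl h = h := by
  apply fam_ext
  intro c a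
  rw [act_apply, toZ_apply]
  have h3 : ((toZ σ : U ≃ₐ[ZMod p] U).symm : U →ₐ[ZMod p] U).comp
      (c.comp ((AlgEquiv.refl : F ≃ₐ[ZMod p] F) : F →ₐ[ZMod p] F)) = c := by
    apply AlgHom.ext
    intro r
    apply (toZ σ : U ≃ₐ[ZMod p] U).injective
    change (toZ σ : U ≃ₐ[ZMod p] U) ((toZ σ : U ≃ₐ[ZMod p] U).symm (c r)) = toZ σ (c r)
    rw [AlgEquiv.apply_symm_apply, toZ_apply, h1]
  rw [h3]
  exact h2 c a

omit [IsDomain A] [Algebra.FiniteType (ZMod p) A] [Algebra (ZMod p) K]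
  [IsScalarTower (ZMod p) K U] in
theorem act_refl_apply {E : Type} [Field E] [Algebra E U] (σ : U ≃ₐ[E] U) {h : Fam p A F U}
    (h1 : ∀ (c : F →ₐ[ZMod p] U) (r : F), σ (c r) = c r) (c : F →ₐ[ZMod p] U) (a : A) :
    hom (act (toZ σ) AlgEquiv.refl AlgEquiv.refl isHopf_refl h c) a = σ (hom (h c) a) := by
  rw [act_apply, toZ_apply]
  have h3 : ((toZ σ : U ≃ₐ[ZMod p] U).symm : U →ₐ[ZMod p] U).comp
      (c.comp ((AlgEquiv.refl : F ≃ₐ[ZMod p] F) : F →ₐ[ZMod p] F)) = c := by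
    apply AlgHom.ext
    intro r
    apply (toZ σ : U ≃ₐ[ZMod p] U).injective
    change (toZ σ : U ≃ₐ[ZMod p] U) ((toZ σ : U ≃ₐ[ZMod p] U).symm (c r)) = toZ σ (c r)
    rw [AlgEquiv.apply_symm_apply, toZ_apply, h1]
  rw [h3]
  rfl

/-- The Lang map of a generic family is generic. -/
theorem lang_coord [IsReduced F] [Infinite K] {x : ι → FractionRing A} (hx : IsRat (ZMod p) x)
    (e : Module.Basis κ (ZMod p) F) {u : κ × ι → U} (hu : IsTranscendenceBasis K u)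
    {g h : Fam p A F U} (hg : IsCoord x e g u)
    (φ : A →ₐ[ZMod p] A) (hφ : IsHopf φ) (θ : F ≃ₐ[ZMod p] F) (m : ℕ)
    (hm1 : ∀ a, φ^[m] a = a ^ p) (hm2 : ∀ r, θ^[m] r = r ^ p)
    (hh : h = Phi φ hφ θ g * g⁻¹) (N : Type) [Finite N] (T : N → Pts (ZMod p) A F)
    (hT : ∀ t : Pts (ZMod p) A F, (∀ a, hom t (φ a) = θ (hom t a)) → ∃ n, T n = t) :
    ∃ z : κ × ι → U, IsCoord x e h z ∧ IsTranscendenceBasis K z := by
  refine coord_of_acl hx e hu h fun q => acl_le ?_ (hg.coord_acl (K := K) hx q)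
  intro s hs
  obtain ⟨c, hc⟩ := Set.mem_iUnion.1 hs
  obtain ⟨a, rfl⟩ := hc
  set S : Set U := ⋃ c, Set.range (hom (h c)) with hS
  have hinf : Infinite (acl K S) := Infinite.of_injective _ (algebraMap K (acl K S)).injective
  apply acl_closed
  refine alg_of_finite_orbit (hom (g c) a)
    (Set.range fun n : N => hom ((g * emb (T n) : Fam p A F U) c) a) (Set.finite_range _) ?_
  intro σ
  have h1 : ∀ (c : F →ₐ[ZMod p] U) (r : F), σ (c r) = c r := fun c r =>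
    σ.commutes (⟨c r, acl_alg S c r⟩ : acl K S)
  have h2 : ∀ c a, σ (hom (h c) a) = hom (h c) a := fun c a =>
    σ.commutes (⟨hom (h c) a, subset_acl S (Set.mem_iUnion.2 ⟨c, a, rfl⟩)⟩ : acl K S)
  obtain ⟨t, ht1, ht2⟩ := act_lang φ hφ θ m hm1 hm2 hh (toZ σ) AlgEquiv.refl AlgEquiv.refl
    isHopf_refl (fun _ => rfl) rfl (act_refl_fix σ h1 h2)
  obtain ⟨n, rfl⟩ := hT t ht1
  refine ⟨n, ?_⟩
  change hom ((g * emb (T n) : Fam p A F U) c) a = _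
  rw [← ht2, act_refl_apply σ h1]

end main

end Pool.Agent.K7.H53.LT
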