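import Pool.Agent.Y60.DC.Tb

/-!
# Elements with finitely many conjugates are algebraic
-/

set_option autoImplicit false

namespace Pool.Agent.K7.H53.LT

open Pool.Agent.Y60.DC (exists_iso)

/-- Replace one element `v` of a transcendence basis by `v + e`. -/
theorem tb_shift {E U ι : Type} [Field E] [Field U] [Algebra E U] [DecidableEq ι] {y : ι → U}
    (hy : IsTranscendenceBasis E y) (i : ι) (e : E) :
    IsTranscendenceBasis E fun j => if j = i then y j + algebraMap E U e else y j := by
  set y' : ι → U := fun j => if j = i then y j + algebraMap E U e else y j with hy'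
  let φ : E → MvPolynomial ι E →ₐ[E] MvPolynomial ι E := fun e => MvPolynomial.aeval fun j =>
    if j = i then MvPolynomial.X j + MvPolynomial.C e else MvPolynomial.X j
  have h1 : (φ (-e)).comp (φ e) = AlgHom.id E _ := by
    apply MvPolynomial.algHom_ext
    intro j
    change φ (-e) (φ e (MvPolynomial.X j)) = MvPolynomial.X j
    simp only [φ, MvPolynomial.aeval_X]
    by_cases hj : j = i
    · rw [if_pos hj, map_add, MvPolynomial.aeval_X, if_pos hj, MvPolynomial.aeval_C,
        MvPolynomial.algebraMap_eq, MvPolynomial.C_neg, neg_add_cancel_right]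
    · rw [if_neg hj, MvPolynomial.aeval_X, if_neg hj]
  have h2 : Function.Injective (φ e) := by
    intro a b hab
    have h3 := congrArg (φ (-e)) hab
    have h4 : ∀ c, φ (-e) (φ e c) = c := fun c => AlgHom.congr_fun h1 c
    rwa [h4, h4] at h3
  have h3 : (MvPolynomial.aeval y' : MvPolynomial ι E →ₐ[E] U) =
      (MvPolynomial.aeval y).comp (φ e) := by
    apply MvPolynomial.algHom_ext
    intro j
    rw [MvPolynomial.aeval_X]
    change _ = MvPolynomial.aeval y (φ e (MvPolynomial.X j))
    simp only [φ, MvPolynomial.aeval_X, y']
    by_cases hj : j = i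
    · rw [if_pos hj, if_pos hj, map_add, MvPolynomial.aeval_X, MvPolynomial.aeval_C]
    · rw [if_neg hj, if_neg hj, MvPolynomial.aeval_X]
  rw [isTranscendenceBasis_iff_algebraicIndependent_isAlgebraic]
  constructor
  · change Function.Injective (MvPolynomial.aeval y' : MvPolynomial ι E →ₐ[E] U)
    rw [h3]
    exact fun a b hab => h2 (hy.1 hab)
  · have h4 : Algebra.adjoin E (Set.range y') = Algebra.adjoin E (Set.range y) := by
      have h5 : y' i = y i + algebraMap E U e := if_pos rfl
      apply le_antisymm
      · refine Algebra.adjoin_le ?_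
        rintro _ ⟨j, rfl⟩
        by_cases hj : j = i
        · rw [hj, h5]
          exact add_mem (Algebra.subset_adjoin ⟨i, rfl⟩) (Subalgebra.algebraMap_mem _ e)
        · have h6 : y' j = y j := if_neg hj
          rw [h6]
          exact Algebra.subset_adjoin ⟨j, rfl⟩
      · refine Algebra.adjoin_le ?_
        rintro _ ⟨j, rfl⟩
        by_cases hj : j = i
        · have h6 : y j = y' i - algebraMap E U e := by rw [hj, h5, add_sub_cancel_right]
          rw [h6]
          exact sub_mem (Algebra.subset_adjoin ⟨i, rfl⟩) (Subalgebra.algebraMap_mem _ e)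
        · have h6 : y' j = y j := if_neg hj
          rw [← h6]
          exact Algebra.subset_adjoin ⟨j, rfl⟩
    rw [h4]
    exact hy.isAlgebraic

/-- An element with finitely many images under the automorphisms of `U` over `E` is algebraic. -/
theorem alg_of_finite_orbit {E U : Type} [Field E] [Infinite E] [Field U] [IsAlgClosed U]
    [Algebra E U] (v : U) (S : Set U) (hS : S.Finite) (h : ∀ σ : U ≃ₐ[E] U, σ v ∈ S) :
    IsAlgebraic E v := by
  classical
  by_contra hv
  have h1 : AlgebraicIndepOn E id ({v} : Set U) := by
    refine (algebraicIndependent_singleton_iff (⟨v, rfl⟩ : ({v} : Set U))).2 ?_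
    exact hv
  obtain ⟨t, ht, hb⟩ := exists_isTranscendenceBasis_superset h1
  have hvt : v ∈ t := ht rfl
  choose σ hσ using fun e : E => exists_iso E U U t hb (tb_shift hb ⟨v, hvt⟩ e)
  have h2 : ∀ e, σ e v = v + algebraMap E U e := fun e => by
    have h3 := hσ e ⟨v, hvt⟩
    rw [if_pos rfl] at h3
    exact h3
  have h4 : Set.Finite (Set.range fun e : E => σ e v) := hS.subset (by
    rintro _ ⟨e, rfl⟩
    exact h _)
  have h5 : Function.Injective fun e : E => σ e v := by
    intro a b hab
    simp only [h2] at hab
    exact (algebraMap E U).injective (add_left_cancel hab)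
  exact Set.infinite_range_of_injective h5 h4

end Pool.Agent.K7.H53.LT
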