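import Mathlib

/-!
# Points of an affine group scheme

`A` is a commutative Hopf algebra over the field `k`. The points of the group scheme with values in
a commutative algebra `B` are the homomorphisms `A → B`.
-/

set_option autoImplicit false

open Algebra Coalgebra Bialgebra TensorProduct WithConv

namespace Pool.Agent.K7.H53.LT

variable {k A A' B B' : Type} [Field k] [CommRing A] [HopfAlgebra k A] [CommRing A']
  [HopfAlgebra k A'] [CommRing B] [Algebra k B] [CommRing B'] [Algebra k B']

/-- The product of two points: `f * g = (f ⊗ g) ∘ Δ`. -/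
noncomputable def mulPt (f g : A →ₐ[k] B) : A →ₐ[k] B :=
  (Algebra.TensorProduct.lift f g fun _ _ => Commute.all _ _).comp (comulAlgHom k A)

theorem mulPt_conv (f g : A →ₐ[k] B) : mulPt f g = (toConv f * toConv g).ofConv := by
  apply AlgHom.ext
  intro a
  exact (AlgHom.convMul_apply (toConv f) (toConv g) a).symm

/-- The group of points. -/
def Pts (k A B : Type) [Field k] [CommRing A] [HopfAlgebra k A] [CommRing B] [Algebra k B] : Type :=
  A →ₐ[k] B

noncomputable instance : Group (Pts k A B) where
  mul f g := mulPt f g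
  one := (Algebra.ofId k B).comp (counitAlgHom k A)
  inv f := AlgHom.comp f (HopfAlgebra.antipodeAlgHom k A)
  mul_assoc f g h := by
    change mulPt (mulPt f g) h = mulPt f (mulPt g h)
    rw [mulPt_conv, mulPt_conv, mulPt_conv, mulPt_conv]
    exact congrArg ofConv (mul_assoc (toConv f : WithConv (A →ₐ[k] B))
      (toConv g : WithConv (A →ₐ[k] B)) (toConv h : WithConv (A →ₐ[k] B)))
  one_mul f := by
    change mulPt ((Algebra.ofId k B).comp (counitAlgHom k A)) f = f
    rw [mulPt_conv]
    exact congrArg ofConv (one_mul (toConv f : WithConv (A →ₐ[k] B)))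
  mul_one f := by
    change mulPt f ((Algebra.ofId k B).comp (counitAlgHom k A)) = f
    rw [mulPt_conv]
    exact congrArg ofConv (mul_one (toConv f : WithConv (A →ₐ[k] B)))
  inv_mul_cancel f := by
    have h1 : mulPt (HopfAlgebra.antipodeAlgHom k A) (AlgHom.id k A) =
        (Algebra.ofId k A).comp (counitAlgHom k A) := by
      rw [mulPt_conv, AlgHom.antipode_id_cancel]
      rfl
    have h2 : mulPt (AlgHom.comp f (HopfAlgebra.antipodeAlgHom k A)) f =
        AlgHom.comp f (mulPt (HopfAlgebra.antipodeAlgHom k A) (AlgHom.id k A)) := by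
      rw [mulPt_conv, mulPt_conv, AlgHom.comp_convMul_distrib]
      rfl
    change mulPt (AlgHom.comp f (HopfAlgebra.antipodeAlgHom k A)) f = _
    rw [h2, h1]
    apply AlgHom.ext
    intro a
    exact (AlgHom.commutes f _)

/-- Points as homomorphisms. -/
def pt (f : A →ₐ[k] B) : Pts k A B := f

/-- Points as homomorphisms. -/
def hom (f : Pts k A B) : A →ₐ[k] B := f

theorem hom_mul (f g : Pts k A B) : hom (f * g) = mulPt (hom f) (hom g) := rfl

theorem hom_inv (f : Pts k A B) : hom f⁻¹ = (hom f).comp (HopfAlgebra.antipodeAlgHom k A) := rfl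

theorem hom_injective {f g : Pts k A B} (h : hom f = hom g) : f = g := h

/-- Functoriality in `B`. -/
noncomputable def post (θ : B →ₐ[k] B') : Pts k A B →* Pts k A B' :=
  MonoidHom.mk' (fun f => pt (θ.comp (hom f))) fun f g => by
    change θ.comp (mulPt (hom f) (hom g)) = mulPt (θ.comp (hom f)) (θ.comp (hom g))
    rw [mulPt_conv, mulPt_conv, AlgHom.comp_convMul_distrib]

/-- Functoriality in `A`. -/
noncomputable def pre (w : A' →ₐc[k] A) : Pts k A B →* Pts k A' B :=
  MonoidHom.mk' (fun f => pt ((hom f).comp (w : A' →ₐ[k] A))) fun f g => by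
    change (mulPt (hom f) (hom g)).comp (w : A' →ₐ[k] A) =
      mulPt ((hom f).comp (w : A' →ₐ[k] A)) ((hom g).comp (w : A' →ₐ[k] A))
    rw [mulPt_conv, mulPt_conv]
    exact AlgHom.convMul_comp_bialgHom_distrib (toConv (hom f)) (toConv (hom g)) w

theorem post_apply (θ : B →ₐ[k] B') (f : Pts k A B) (a : A) :
    hom (post θ f) a = θ (hom f a) := rfl

theorem pre_apply (w : A' →ₐc[k] A) (f : Pts k A B) (a : A') :
    hom (pre w f) a = hom f (w a) := rfl

theorem pts_ext {f g : Pts k A B} (h : ∀ a, hom f a = hom g a) : f = g :=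
  hom_injective (AlgHom.ext h)

/-- The values of a product of points. -/
theorem mul_mem (S : Subalgebra k B) {f g : Pts k A B} (hf : ∀ a, hom f a ∈ S)
    (hg : ∀ a, hom g a ∈ S) (a : A) : hom (f * g) a ∈ S := by
  rw [hom_mul]
  change (Algebra.TensorProduct.lift (hom f) (hom g) fun _ _ => Commute.all _ _)
    (comulAlgHom k A a) ∈ S
  induction (comulAlgHom k A a) using TensorProduct.induction_on with
  | zero => rw [map_zero]; exact S.zero_mem
  | tmul x y =>
    rw [Algebra.TensorProduct.lift_tmul]
    exact S.mul_mem (hf x) (hg y)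
  | add x y hx hy => rw [map_add]; exact S.add_mem hx hy

theorem inv_mem (S : Subalgebra k B) {f : Pts k A B} (hf : ∀ a, hom f a ∈ S) (a : A) :
    hom f⁻¹ a ∈ S := hf _

end Pool.Agent.K7.H53.LT
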