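import Pool.Agent.K7.H53.LT.Coord
import Pool.Agent.K7.H53.LT.Orb

/-!
# Transcendence bases and coordinates
-/

set_option autoImplicit false
set_option maxHeartbeats 400000

open IntermediateField

namespace Pool.Agent.K7.H53.LT

section reindex

variable {K U : Type} [Field K] [Field U] [Algebra K U]

theorem tb_reindex {ι ι' : Type} (ρ : ι' ≃ ι) {u : ι → U} (hu : IsTranscendenceBasis K u) :
    IsTranscendenceBasis K (u ∘ ρ) := by
  rw [isTranscendenceBasis_iff_algebraicIndependent_isAlgebraic] at hu ⊢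
  refine ⟨hu.1.comp ρ ρ.injective, ?_⟩
  rw [EquivLike.range_comp u ρ]
  exact hu.2

theorem tb_acl' {ι ι' : Type} [Finite ι] (ρ : ι' ≃ ι) {u : ι → U}
    (hu : IsTranscendenceBasis K u) (x : ι' → U) (h : ∀ i, u i ∈ acl K (Set.range x)) :
    IsTranscendenceBasis K x := by
  have hf : Finite ι' := Finite.of_equiv _ ρ.symm
  have h1 : IsTranscendenceBasis K (u ∘ ρ) := tb_reindex ρ hu
  exact tb_acl h1 x fun i => h (ρ i)

end reindex

section main

variable {p : ℕ} [Fact p.Prime] {A F K U κ ι : Type} [CommRing A] [IsDomain A]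
  [HopfAlgebra (ZMod p) A] [CommRing F] [Finite F]
  [Algebra (ZMod p) F] [Field K] [Algebra (ZMod p) K] [Field U] [IsAlgClosed U]
  [Algebra (ZMod p) U] [Algebra K U] [IsScalarTower (ZMod p) K U]

theorem alg_emb (K : Type) [Field K] [Algebra (ZMod p) K] [Algebra K U]
    [IsScalarTower (ZMod p) K U] (c : F →ₐ[ZMod p] U) (r : F) : IsAlgebraic K (c r) := by
  have h1 : IsAlgebraic (ZMod p) r := Algebra.IsAlgebraic.isAlgebraic r
  have h2 : IsAlgebraic (ZMod p) (c r) := h1.algHom c
  exact h2.tower_top K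

theorem acl_alg (S : Set U) (c : F →ₐ[ZMod p] U) (r : F) : c r ∈ acl K S :=
  alg_acl S (alg_emb K c r)

variable [Fintype κ] [Fintype ι]

/-- The values are algebraic over the coordinates. -/
theorem IsCoord.val_acl {x : ι → FractionRing A} (hx : IsRat (ZMod p) x) {e : κ → F}
    {g : Fam p A F U} {z : κ × ι → U} (h : IsCoord x e g z) (c : F →ₐ[ZMod p] U) (a : A) :
    hom (g c) a ∈ acl K (Set.range z) := by
  obtain ⟨hg, h⟩ := h
  rw [← ex_alg (hom (g c)) (hg c)]
  refine ex_mem hx (hom (g c)) (hg c) ((acl K (Set.range z)).restrictScalars (ZMod p))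
    (fun j => ?_) _
  rw [h]
  change _ ∈ acl K (Set.range z)
  exact sum_mem fun i _ => MulMemClass.mul_mem (subset_acl _ ⟨_, rfl⟩) (acl_alg _ c (e i))

/-- The coordinates are algebraic over the values. -/
theorem IsCoord.coord_acl [IsReduced F] {x : ι → FractionRing A} (hx : IsRat (ZMod p) x)
    {e : Module.Basis κ (ZMod p) F}
    {g : Fam p A F U} {z : κ × ι → U} (h : IsCoord x e g z) (q : κ × ι) :
    z q ∈ acl K (⋃ c, Set.range (hom (g c))) := by
  obtain ⟨hg, h0⟩ := id h
  obtain ⟨z', h1, D, hD, h2⟩ := exists_coord x e g hg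
  rw [h.unique_z h1, h2]
  refine sum_mem fun c _ => MulMemClass.mul_mem ?_ (alg_acl _ ((hD q.1 c).tower_top K))
  obtain ⟨a, b, hb, hab⟩ := IsFractionRing.div_surjective (A := A) (x q.2)
  rw [← hab, map_div₀, ex_alg, ex_alg]
  exact div_mem (subset_acl _ (Set.mem_iUnion.2 ⟨c, a, rfl⟩))
    (subset_acl _ (Set.mem_iUnion.2 ⟨c, b, rfl⟩))

theorem card_emb [IsReduced F] (e : Module.Basis κ (ZMod p) F) :
    Nonempty ((F →ₐ[ZMod p] U) ≃ κ) := by
  classical
  obtain ⟨D, h1, h2⟩ := exists_D (U := U) e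
  let M : Matrix κ (F →ₐ[ZMod p] U) U := fun i c => c (e i)
  let M' : Matrix (F →ₐ[ZMod p] U) κ U := fun c i => D i c
  have h3 : M * M' = 1 := by
    ext i j
    rw [Matrix.mul_apply, Matrix.one_apply]
    exact h1 i j
  have h4 : M' * M = 1 := by
    ext c c'
    rw [Matrix.mul_apply, Matrix.one_apply]
    exact h2 c c'
  exact ⟨Fintype.equivOfCardEq (Matrix.square_of_invertible M' M h4 h3)⟩

/-- Families over which a transcendence basis is algebraic have coordinates which form a
transcendence basis. -/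
theorem coord_of_acl [IsReduced F] [Algebra.FiniteType (ZMod p) A] {x : ι → FractionRing A}
    (hx : IsRat (ZMod p) x) (e : Module.Basis κ (ZMod p) F) {u : κ × ι → U}
    (hu : IsTranscendenceBasis K u) (g : Fam p A F U)
    (h : ∀ q, u q ∈ acl K (⋃ c, Set.range (hom (g c)))) :
    ∃ z : κ × ι → U, IsCoord x e g z ∧ IsTranscendenceBasis K z := by
  obtain ⟨ρ⟩ := card_emb (U := U) e
  have h1 : IsTranscendenceBasis K (u ∘ (ρ.prodCongr (Equiv.refl ι))) :=
    tb_reindex _ hu
  obtain ⟨hg, -⟩ := count_lemma hx h1 (fun c => hom (g c)) fun q => h _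
  obtain ⟨z, h2, -⟩ := exists_coord x e g hg
  refine ⟨z, h2, tb_acl hu z fun q => ?_⟩
  refine acl_le ?_ (h q)
  intro s hs
  obtain ⟨c, hc⟩ := Set.mem_iUnion.1 hs
  obtain ⟨a, rfl⟩ := hc
  exact h2.val_acl hx c a

/-- Families with given generic coordinates. -/
theorem exists_gen_fam [IsReduced F] {x : ι → FractionRing A}
    (hx : IsRat (ZMod p) x) (e : Module.Basis κ (ZMod p) F) {u : κ × ι → U}
    (hu : IsTranscendenceBasis K u) : ∃ g : Fam p A F U, IsCoord x e g u := by
  classical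
  apply exists_fam hx e u
  intro c
  obtain ⟨ρ⟩ := card_emb (U := U) e
  obtain ⟨D, h1, h2⟩ := exists_D (U := U) e
  have h3 : IsTranscendenceBasis K fun q : (F →ₐ[ZMod p] U) × ι =>
      ∑ i, u (i, q.2) * q.1 (e i) := by
    refine tb_acl' (ρ.prodCongr (Equiv.refl ι)) hu _ fun q => ?_
    have h4 : u q = ∑ c : F →ₐ[ZMod p] U, (∑ i, u (i, q.2) * c (e i)) * D q.1 c := by
      have h5 : ∑ c : F →ₐ[ZMod p] U, (∑ i, u (i, q.2) * c (e i)) * D q.1 c =
          ∑ i, u (i, q.2) * ∑ c : F →ₐ[ZMod p] U, c (e i) * D q.1 c := by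
        simp only [Finset.sum_mul, Finset.mul_sum]
        rw [Finset.sum_comm]
        refine Finset.sum_congr rfl fun i _ => Finset.sum_congr rfl fun c _ => by ring
      rw [h5]
      simp only [h1]
      rw [Finset.sum_eq_single q.1]
      · rw [if_pos rfl, mul_one]
      · intro i _ hi
        rw [if_neg hi, mul_zero]
      · intro hq
        exact absurd (Finset.mem_univ _) hq
    rw [h4]
    exact sum_mem fun c _ => MulMemClass.mul_mem (subset_acl _ ⟨(c, q.2), rfl⟩)
      (alg_acl _ ((D_alg h1 h2 q.1 c).tower_top K))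
  have h6 : AlgebraicIndependent K (fun j => ∑ i, u (i, j) * c (e i)) :=
    h3.1.comp (fun j => (c, j)) fun i j hij => (Prod.mk.inj hij).2
  exact h6.restrictScalars (algebraMap (ZMod p) K).injective

omit [IsAlgClosed U] in
theorem mul_mem_field (E : IntermediateField K U) {f g : Pts (ZMod p) A U}
    (hf : ∀ a, hom f a ∈ E) (hg : ∀ a, hom g a ∈ E) (a : A) : hom (f * g) a ∈ E := by
  let S : Subalgebra (ZMod p) U := (E.restrictScalars (ZMod p)).toSubalgebra
  have hS : ∀ z, z ∈ S ↔ z ∈ E := fun z => Iff.rfl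
  exact (hS _).1 (LT.mul_mem S (fun a => (hS _).2 (hf a)) (fun a => (hS _).2 (hg a)) a)

/-- The values of a factor. -/
theorem emb_mul_acl {g g' : Fam p A F U} (t : Pts (ZMod p) A F) (h : g = g' * emb t)
    (c : F →ₐ[ZMod p] U) (a : A) : hom (g c) a ∈ acl K (⋃ c, Set.range (hom (g' c))) := by
  have h1 : g c = g' c * (emb t : Fam p A F U) c := congrFun h c
  rw [h1]
  refine mul_mem_field _ (fun a => ?_) (fun a => ?_) a
  · exact subset_acl _ (Set.mem_iUnion.2 ⟨c, a, rfl⟩)
  · rw [emb_apply]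
    exact acl_alg _ c _

/-- The products with the points with values in `F`. -/
theorem coord_mul_emb [IsReduced F] [Algebra.FiniteType (ZMod p) A] {x : ι → FractionRing A}
    (hx : IsRat (ZMod p) x) (e : Module.Basis κ (ZMod p) F) {u : κ × ι → U}
    (hu : IsTranscendenceBasis K u) {g : Fam p A F U} (hg : IsCoord x e g u)
    (t : Pts (ZMod p) A F) (g' : Fam p A F U) (h : g = g' * emb t) :
    ∃ z : κ × ι → U, IsCoord x e g' z ∧ IsTranscendenceBasis K z := by
  refine coord_of_acl hx e hu g' fun q => acl_le ?_ (hg.coord_acl (K := K) hx q)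
  intro s hs
  obtain ⟨c, hc⟩ := Set.mem_iUnion.1 hs
  obtain ⟨a, rfl⟩ := hc
  exact emb_mul_acl t h c a

end main

end Pool.Agent.K7.H53.LT
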