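import Pool.Agent.K7.H53.LT.Lang
import Pool.Agent.Y60.DC.Rat

/-!
# Twisted forms of the space of coordinates
-/

set_option autoImplicit false
set_option maxHeartbeats 400000

open IntermediateField

namespace Pool.Agent.K7.H53.LT

open Pool.Agent.Y60.DC (speiser tb_up exists_iso)

section twist

/-- Invariant bases of twisted forms. -/
theorem twist_basis (K L : Type) [Field K] [Field L] [Algebra K L] [FiniteDimensional K L]
    [IsGalois K L] {k q : Type} [Field k] [Algebra k L] [Algebra k K] [IsScalarTower k K L]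
    [Fintype q] [DecidableEq q] (Q : (L ≃ₐ[K] L) → Matrix q q k) (h1 : Q 1 = 1)
    (h2 : ∀ γ δ, Q (γ * δ) = Q γ * Q δ) :
    ∃ b c : q → q → L, (∀ i j, ∑ l, b l i * c l j = if i = j then 1 else 0) ∧
      ∀ γ l i, ∑ j, algebraMap k L (Q γ i j) * γ (b l j) = b l i := by
  classical
  let s : (L ≃ₐ[K] L) → (q → L) → (q → L) := fun γ v i =>
    ∑ j, algebraMap k L (Q γ i j) * γ (v j)
  have hk : ∀ (γ : L ≃ₐ[K] L) (r : k), γ (algebraMap k L r) = algebraMap k L r := by
    intro γ r
    rw [IsScalarTower.algebraMap_apply k K L, AlgEquiv.commutes]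
  obtain ⟨B, hB⟩ := speiser K L (q → L) s
    (fun γ v w => by
      funext i
      change ∑ j, algebraMap k L (Q γ i j) * γ (v j + w j) = ∑ j, algebraMap k L (Q γ i j) * γ (v j) +
        ∑ j, algebraMap k L (Q γ i j) * γ (w j)
      rw [← Finset.sum_add_distrib]
      refine Finset.sum_congr rfl fun j _ => ?_
      rw [map_add, mul_add])
    (fun γ l v => by
      funext i
      change ∑ j, algebraMap k L (Q γ i j) * γ (l * v j) =
        γ l * ∑ j, algebraMap k L (Q γ i j) * γ (v j)
      rw [Finset.mul_sum]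
      refine Finset.sum_congr rfl fun j _ => ?_
      rw [map_mul]
      ring)
    (fun v => by
      funext i
      change ∑ j, algebraMap k L (Q 1 i j) * v j = v i
      rw [h1, Finset.sum_eq_single i]
      · rw [Matrix.one_apply_eq, map_one, one_mul]
      · intro j _ hj
        rw [Matrix.one_apply_ne (Ne.symm hj), map_zero, zero_mul]
      · intro hi
        exact absurd (Finset.mem_univ _) hi)
    (fun γ δ v => by
      funext i
      change ∑ j, algebraMap k L (Q (γ * δ) i j) * γ (δ (v j)) =
        ∑ l, algebraMap k L (Q γ i l) * γ (∑ j, algebraMap k L (Q δ l j) * δ (v j))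
      simp only [h2, Matrix.mul_apply, map_sum, map_mul, hk, Finset.mul_sum, Finset.sum_mul]
      rw [Finset.sum_comm]
      refine Finset.sum_congr rfl fun j _ => Finset.sum_congr rfl fun l _ => by ring)
  have hcard : Fintype.card (Fin (Module.finrank L (q → L))) = Fintype.card q := by
    rw [Fintype.card_fin, Module.finrank_fintype_fun_eq_card]
  let B' : Module.Basis q L (q → L) := B.reindex (Fintype.equivOfCardEq hcard)
  have hB' : ∀ γ l, s γ (B' l) = B' l := by
    intro γ l
    rw [Module.Basis.reindex_apply]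
    exact hB _ _
  refine ⟨fun l i => B' l i, fun l j => B'.repr (Pi.single j 1) l, fun i j => ?_, fun γ l i => ?_⟩
  · have h3 := congrFun (B'.sum_repr (Pi.single j (1 : L))) i
    rw [Finset.sum_apply] at h3
    rw [show (∑ l, B' l i * B'.repr (Pi.single j 1) l) =
      ∑ l, (B'.repr (Pi.single j 1) l • B' l) i from Finset.sum_congr rfl fun l _ => by
        rw [Pi.smul_apply, smul_eq_mul, mul_comm], h3, Pi.single_apply]
  · exact congrFun (hB' γ l) i

/-- Elements of the twisted form. -/
theorem tw_sum {L U q : Type} [Field L] [Field U] [Algebra L U] [Fintype q] [DecidableEq q]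
    {b c : q → q → L} (hbc : ∀ i j, ∑ l, b l i * c l j = if i = j then 1 else 0) (z : q → U)
    (i : q) : ∑ l, (∑ j, algebraMap L U (c l j) * z j) * algebraMap L U (b l i) = z i := by
  have h1 : ∑ l, (∑ j, algebraMap L U (c l j) * z j) * algebraMap L U (b l i) =
      ∑ j, algebraMap L U (∑ l, b l i * c l j) * z j := by
    simp only [map_sum, map_mul, Finset.sum_mul]
    rw [Finset.sum_comm]
    refine Finset.sum_congr rfl fun j _ => Finset.sum_congr rfl fun l _ => by ring
  rw [h1]
  simp only [hbc]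
  rw [Finset.sum_eq_single i]
  · rw [if_pos rfl, map_one, one_mul]
  · intro j _ hj
    rw [if_neg (Ne.symm hj), map_zero, zero_mul]
  · intro hi
    exact absurd (Finset.mem_univ _) hi

theorem tw_fix {k K L U q : Type} [Field k] [Field K] [Field L] [Field U] [Algebra K L]
    [Algebra L U] [Algebra k L] [Algebra k U] [IsScalarTower k L U]
    [Algebra K U] [Fintype q] [DecidableEq q]
    {b c : q → q → L} (hbc : ∀ i j, ∑ l, b l i * c l j = if i = j then 1 else 0)
    (Q : q → q → k) (γ : L ≃ₐ[K] L) (hQ : ∀ l i, ∑ j, algebraMap k L (Q i j) * γ (b l j) = b l i)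
    (σ : U ≃ₐ[K] U) (hσ : ∀ l, σ (algebraMap L U l) = algebraMap L U (γ l)) (z : q → U)
    (hy : ∀ l, σ (∑ j, algebraMap L U (c l j) * z j) = ∑ j, algebraMap L U (c l j) * z j) (i : q) :
    ∑ j, algebraMap k U (Q i j) * σ (z j) = z i := by
  have h1 : ∀ j, σ (z j) = ∑ l, (∑ j, algebraMap L U (c l j) * z j) * algebraMap L U (γ (b l j)) := by
    intro j
    conv_lhs => rw [← tw_sum hbc z j]
    rw [map_sum]
    refine Finset.sum_congr rfl fun l _ => ?_
    rw [map_mul, hy, hσ]
  have h2 : ∀ j, algebraMap k U (Q i j) * σ (z j) = ∑ l, algebraMap k U (Q i j) *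
      ((∑ j, algebraMap L U (c l j) * z j) * algebraMap L U (γ (b l j))) := fun j => by
    rw [h1, Finset.mul_sum]
  simp only [h2]
  rw [Finset.sum_comm]
  conv_rhs => rw [← tw_sum hbc z i]
  refine Finset.sum_congr rfl fun l _ => ?_
  rw [← hQ l i, map_sum, Finset.mul_sum]
  refine Finset.sum_congr rfl fun j _ => ?_
  rw [map_mul, ← IsScalarTower.algebraMap_apply k L U]
  ring

end twist

section mat

variable {p : ℕ} [Fact p.Prime] {A F U κ ι Γ : Type} [CommRing A] [IsDomain A] [Group Γ]
  [HopfAlgebra (ZMod p) A] [CommRing F] [Algebra (ZMod p) F] [Fintype κ] [Fintype ι]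
  [DecidableEq κ] [DecidableEq ι]

/-- The extension of `ω` to the field of fractions stabilises the span of the elements `x j`. -/
def Stable (x : ι → FractionRing A) (ω : A ≃ₐ[ZMod p] A) : Prop :=
  ∃ E : FractionRing A ≃+* FractionRing A,
    (∀ a, E (algebraMap A (FractionRing A) a) = algebraMap A (FractionRing A) (ω a)) ∧
    ∀ j, E (x j) ∈ Submodule.span (ZMod p) (Set.range x)

omit [DecidableEq κ] [Fintype κ] in
theorem exists_M {x : ι → FractionRing A} (hx : IsRat (ZMod p) x) (ω : Γ →* (A ≃ₐ[ZMod p] A))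
    (hst : ∀ γ, Stable x (ω γ)) :
    ∃ (E : Γ → FractionRing A ≃+* FractionRing A) (M : Γ → Matrix ι ι (ZMod p)),
      (∀ γ a, E γ (algebraMap A (FractionRing A) a) =
        algebraMap A (FractionRing A) ((ω γ).symm a)) ∧
      (∀ γ j, E γ (x j) = ∑ i, M γ j i • x i) ∧ M 1 = 1 ∧ ∀ γ δ, M (γ * δ) = M γ * M δ := by
  have hs : ∀ γ, (ω γ).symm = ω γ⁻¹ := fun γ => (map_inv ω γ).symm
  choose E hE1 hE2 using fun γ => hst γ⁻¹
  have h1 : ∀ γ j, ∃ M : ι → ZMod p, ∑ i, M i • x i = E γ (x j) := fun γ j =>
    (Submodule.mem_span_range_iff_exists_fun _).1 (hE2 γ j)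
  choose M hM using h1
  have hli : LinearIndependent (ZMod p) x := hx.indep.linearIndependent
  have huniq : ∀ (a b : ι → ZMod p), ∑ i, a i • x i = ∑ i, b i • x i → a = b := by
    intro a b hab
    have h2 := Fintype.linearIndependent_iff.1 hli (fun i => a i - b i) (by
      simp only [sub_smul, Finset.sum_sub_distrib, hab, sub_self])
    funext i
    exact sub_eq_zero.1 (h2 i)
  have hsm : ∀ γ (r : ZMod p) z, E γ (r • z) = r • E γ z := by
    intro γ r z
    have h3 : ((E γ : FractionRing A →+* FractionRing A).comp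
        (algebraMap (ZMod p) (FractionRing A))) = algebraMap (ZMod p) (FractionRing A) :=
      Subsingleton.elim _ _
    rw [Algebra.smul_def, Algebra.smul_def, map_mul]
    congr 1
    exact RingHom.congr_fun h3 r
  have hE3 : ∀ γ a, E γ (algebraMap A (FractionRing A) a) =
      algebraMap A (FractionRing A) ((ω γ).symm a) := by
    intro γ a
    rw [hs]
    exact hE1 γ a
  have hext : ∀ f g : FractionRing A →+* FractionRing A,
      (∀ a, f (algebraMap A (FractionRing A) a) = g (algebraMap A (FractionRing A) a)) →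
      ∀ z, f z = g z := by
    intro f g h z
    have h4 : f = g := IsLocalization.ringHom_ext (nonZeroDivisors A) (RingHom.ext h)
    rw [h4]
  refine ⟨E, M, hE3, fun γ j => (hM γ j).symm, ?_, fun γ δ => ?_⟩
  · funext j
    apply huniq
    rw [hM]
    have h5 : E 1 (x j) = x j := hext (E 1 : _ →+* _) (RingHom.id _) (fun a => by
      change E 1 _ = _
      rw [hE3, map_one]
      rfl) (x j)
    rw [h5, Finset.sum_eq_single j]
    · rw [Matrix.one_apply_eq, one_smul]
    · intro i _ hi
      rw [Matrix.one_apply_ne (Ne.symm hi), zero_smul]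
    · intro hj
      exact absurd (Finset.mem_univ _) hj
  · funext j
    apply huniq
    rw [hM]
    have h5 : E (γ * δ) (x j) = E δ (E γ (x j)) :=
      hext (E (γ * δ) : _ →+* _) ((E δ : FractionRing A →+* FractionRing A).comp
        (E γ : FractionRing A →+* FractionRing A)) (fun a => by
        change E (γ * δ) _ = E δ (E γ _)
        rw [hE3, hE3, hE3, map_mul]
        rfl) (x j)
    rw [h5, ← hM, map_sum]
    simp only [hsm, ← hM δ, Matrix.mul_apply, Finset.sum_smul, Finset.smul_sum, smul_smul]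
    rw [Finset.sum_comm]

omit [DecidableEq ι] [Fintype ι] in
theorem exists_P (e : Module.Basis κ (ZMod p) F) (ψ : Γ →* (F ≃ₐ[ZMod p] F)) :
    ∃ P : Γ → Matrix κ κ (ZMod p), (∀ γ l, ψ γ (e l) = ∑ i, P γ i l • e i) ∧ P 1 = 1 ∧
      ∀ γ δ, P (γ * δ) = P γ * P δ := by
  refine ⟨fun γ => LinearMap.toMatrix e e (ψ γ).toLinearMap, fun γ l => ?_, ?_, fun γ δ => ?_⟩
  · simp only [LinearMap.toMatrix_apply]
    exact (e.sum_repr _).symm
  · change LinearMap.toMatrix e e (ψ 1).toLinearMap = 1
    rw [map_one]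
    exact LinearMap.toMatrix_one e
  · change LinearMap.toMatrix e e (ψ (γ * δ)).toLinearMap = _
    rw [map_mul]
    have h1 : (ψ γ * ψ δ).toLinearMap = (ψ γ).toLinearMap * (ψ δ).toLinearMap := rfl
    rw [h1]
    exact LinearMap.toMatrix_mul e (ψ γ).toLinearMap (ψ δ).toLinearMap

end mat

end Pool.Agent.K7.H53.LT
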